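import Pool.Agent.H61.ZX.Isot

/-!
# The law for the products of a variety with the powers of another one
-/

open CategoryTheory AlgebraicGeometry

universe u v

namespace Pool.Agent.H61.ZX

open Module Filter Topology
open Pool.Agent.H914 Pool.Agent.H914.VarClass Pool.Agent.H914.VarClass.Obj
  Pool.Agent.H914.WeilCohomology Pool.Agent.Y133.Half

variable {k : Type u} [Field k] {𝒱 : VarClass k} {ops : CycleOps 𝒱}
  {W : WeilCohomology.{u, v} ops} {P Q Z X Y P₀ : 𝒱.Obj} {S T : Sys W}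

lemma a_eq_of_nondeg (hT : Sys.Nondeg T Q) : T.a Q = finrank W.K (T.C Q) := by
  have h1 : T.Num Q = ⊥ := by
    rw [eq_bot_iff]
    intro x hx
    rw [Submodule.mem_bot]
    exact hT x hx.1 hx.2
  have h2 := T.a_add_num Q
  rwa [h1, finrank_bot, add_zero] at h2

lemma exists_lam_of_nondeg (hT : Sys.Nondeg T X) (h1 : (1 : W.H X) ≠ 0) :
    ∃ l ∈ T.C X, W.tr X l = 1 := by
  by_contra h
  apply h1
  refine hT 1 (T.one X) fun y hy => ?_
  rw [one_mul]
  by_contra h2
  exact h ⟨(W.tr X y)⁻¹ • y, Submodule.smul_mem _ _ hy, by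
    rw [map_smul, smul_eq_mul, inv_mul_cancel₀ h2]⟩

lemma one_ne_pw (h1 : (1 : W.H X) ≠ 0) (n : ℕ) : (1 : W.H (pw X n)) ≠ 0 := by
  have h2 : Nontrivial (W.H X) := ⟨⟨1, 0, h1⟩⟩
  have : Nontrivial (W.H (pw X n)) := by
    apply Module.nontrivial_of_finrank_pos (R := W.K)
    rw [finrank_pw]
    exact Nat.pow_pos Module.finrank_pos
  exact one_ne_zero

theorem big_of_nondeg (hT : ∀ n, Sys.Nondeg T (pw X n)) (h1 : (1 : W.H X) ≠ 0) : Big T X := by
  obtain ⟨l, hl0, hl1⟩ : ∃ l ∈ T.C X, W.tr X l = 1 := exists_lam_of_nondeg (hT 0) h1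
  have h2 : Nontrivial (W.H X) := ⟨⟨1, 0, h1⟩⟩
  have hX : 0 < finrank W.K (W.H X) := Module.finrank_pos
  have hpos : ∀ n, 0 < T.al X n := by
    intro n
    obtain ⟨m, hm, hm1⟩ := T.exists_lam hl0 hl1 n
    refine T.a_pos (Sys.xp_mem_C T hm hm) ?_
    rw [tr_xp, hm1, mul_one]
  refine ⟨⟨l, hl0, hl1⟩, hpos, ?_, hX⟩
  rcases ratio_dichotomy hpos (T.al_convex X) ((finrank W.K (W.H X) : ℝ) ^ 2) with
    ⟨c, hc, hcB, h⟩ | hB
  · exfalso
    obtain ⟨n₀, hn₀⟩ := Sys.small_of (S := T) (T := T) hc hcB h hX (ε := 1 / 2) (by positivity)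
    have h3 := hn₀ n₀ le_rfl
    rw [a_eq_of_nondeg (hT n₀)] at h3
    obtain ⟨m, hm, hm1⟩ := T.exists_lam hl0 hl1 n₀
    have h4 : 0 < T.a (pw X n₀) := T.a_pos hm hm1
    rw [a_eq_of_nondeg (hT n₀)] at h4
    have h5 : (0 : ℝ) < finrank W.K (T.C (pw X n₀)) := by exact_mod_cast h4
    linarith
  · exact hB

/-- The asymptotics of the part cut out by a good idempotent. -/
lemma tendsto_r (hT : Big T X) {π : Module.End W.K (W.H Z)} (hm : π ∈ T.Op Z Z)
    (hi : π ∘ₗ π = π) (hl : Low T X Z π) :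
    Tendsto (fun n => (T.r Z π (pw X n) : ℝ) / nrm T X n) atTop
      (𝓝 (finrank W.K (LinearMap.range π))) := by
  rw [Metric.tendsto_atTop]
  intro ε hε
  obtain ⟨n₀, hn₀⟩ := hl (ε / 2) (by positivity)
  refine ⟨max n₀ 2, fun n hn => ?_⟩
  have h1 := hn₀ n ((le_max_left _ _).trans hn)
  have h2 := r_nrm T (X := X) hm hi n ((le_max_right _ _).trans hn)
  have h3 := nrm_pos hT n
  rw [Real.dist_eq, abs_lt]
  constructor
  · rw [lt_sub_iff_add_lt, lt_div_iff₀ h3]
    nlinarith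
  · rw [sub_lt_iff_lt_add, div_lt_iff₀ h3]
    nlinarith

lemma tendsto_X (hT : Big T X) (hn : ∀ n, Sys.Nondeg T (pw X n)) :
    Tendsto (fun n => (finrank W.K (T.C (pw X n)) : ℝ) / nrm T X n) atTop (𝓝 1) := by
  rw [Metric.tendsto_atTop]
  intro ε hε
  obtain ⟨n₀, hn₀⟩ := nrm_le hT (δ := ε / 2) (by positivity)
  refine ⟨max n₀ 2, fun n hn' => ?_⟩
  have h1 := hn₀ n ((le_max_left _ _).trans hn')
  have h2 := a_le_nrm (S := T) (X := X) n ((le_max_right _ _).trans hn')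
  rw [a_eq_of_nondeg (hn n)] at h1 h2
  have h3 := nrm_pos hT n
  rw [Real.dist_eq, abs_lt]
  constructor
  · rw [lt_sub_iff_add_lt, lt_div_iff₀ h3]
    nlinarith
  · rw [sub_lt_iff_lt_add, div_lt_iff₀ h3]
    nlinarith

lemma finrank_snd_le (h1 : (1 : W.H Z) ≠ 0) (S : Sys W) (Q : 𝒱.Obj) :
    finrank W.K (S.C Q) ≤ finrank W.K (S.C (Z.prod Q)) := by
  apply S.finrank_C_le (snd Z Q)
  intro x y hxy
  have h3 : xp W (1 : W.H Z) (x - y) = 0 := by
    rw [xp, map_one, one_mul, map_sub, hxy, sub_self]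
  exact sub_eq_zero.1 (xp_eq_zero_left h1 h3)

/-- **The limit law** if `S` and `T` agree on the powers of `X`. -/
theorem limit_law (hST : ∀ X, S.C X ≤ T.C X) (heq : ∀ n, S.C (pw X n) = T.C (pw X n))
    (hT : ∀ Q, Sys.Nondeg T Q) (hX : (1 : W.H X) ≠ 0) (hZ : (1 : W.H Z) ≠ 0) :
    ∃ u v : ℕ, 1 ≤ u ∧ u ≤ v ∧ v ≤ finrank W.K (W.H Z) ∧
      Tendsto (fun n => (finrank W.K (S.C (Z.prod (pw X n))) : ℝ) /
        finrank W.K (T.C (Z.prod (pw X n)))) atTop (𝓝 (u / v)) ∧
      Tendsto (fun n => (finrank W.K (T.C (Z.prod (pw X n))) : ℝ) /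
        finrank W.K (T.C (pw X n))) atTop (𝓝 v) ∧
      (u = v ↔ ∀ n, S.C (Z.prod (pw X n)) = T.C (Z.prod (pw X n))) := by
  have hbig := big_of_nondeg (T := T) (X := X) (fun n => hT _) hX
  obtain ⟨π, hπ, hmax, -⟩ := exists_max (Z := Z) (X := X) hST Good.zero
  obtain ⟨ρ, hρ, hρmax, hρπ⟩ := exists_max (fun _ => le_rfl) (hπ.mono hST)
  set u := finrank W.K (LinearMap.range π) with hu
  set v := finrank W.K (LinearMap.range ρ) with hv
  have huv : u ≤ v := by
    rcases hρπ with h | h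
    · rw [hu, hv, h]
    · exact h.le
  have e1 : ∀ n, T.r Z π (pw X n) = finrank W.K (S.C (Z.prod (pw X n))) :=
    finrank_C_eq hST heq (fun n => hT _) (fun n => hT _) hπ hmax
  have e2 : ∀ n, T.r Z ρ (pw X n) = finrank W.K (T.C (Z.prod (pw X n))) :=
    finrank_C_eq (fun _ => le_rfl) (fun _ => rfl) (fun n => hT _) (fun n => hT _) hρ hρmax
  have t1 := tendsto_r hbig hπ.mem hπ.idem (hπ.low T hbig fun _ => le_rfl)
  have t2 := tendsto_r hbig hρ.mem hρ.idem (hρ.low T hbig fun _ => le_rfl)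
  have t3 := tendsto_X hbig fun n => hT _
  simp only [e1] at t1
  simp only [e2] at t2
  have hnrm : ∀ n, nrm T X n ≠ 0 := fun n => (nrm_pos hbig n).ne'
  have hu1 : 1 ≤ u := by
    have h1 : (1 : ℝ) ≤ u := by
      refine le_of_tendsto_of_tendsto' t3 t1 fun n => ?_
      apply div_le_div_of_nonneg_right _ (nrm_pos hbig n).le
      rw [← heq]
      exact_mod_cast finrank_snd_le hZ S (pw X n)
    exact_mod_cast h1
  have hv0 : (v : ℝ) ≠ 0 := by
    have : 0 < v := by omega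
    exact_mod_cast this.ne'
  refine ⟨u, v, hu1, huv, Submodule.finrank_le _, ?_, ?_, ?_⟩
  · refine (t1.div t2 hv0).congr fun n => ?_
    rw [Pi.div_apply, div_div_div_cancel_right₀ (hnrm n)]
  · have h1 := t2.div t3 one_ne_zero
    rw [div_one] at h1
    refine h1.congr fun n => ?_
    rw [Pi.div_apply, div_div_div_cancel_right₀ (hnrm n)]
  · constructor
    · intro h n
      rcases hρπ with h' | h'
      · refine Submodule.eq_of_le_of_finrank_eq (hST _) ?_
        rw [← e1, ← e2, h']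
      · omega
    · intro h
      have h1 : Tendsto (fun n => (finrank W.K (S.C (Z.prod (pw X n))) : ℝ) / nrm T X n) atTop
          (𝓝 v) := by
        refine t2.congr fun n => ?_
        rw [h]
      have h2 := tendsto_nhds_unique t1 h1
      exact_mod_cast h2

lemma nrm_comp (hT : ∀ n, Sys.Nondeg T (pw X n)) {c : ℝ}
    (h : ∃ n₀ : ℕ, ∀ n ≥ n₀, (S.a (pw X n) : ℝ) ≤ c * finrank W.K (T.C (pw X n))) :
    ∃ n₀ : ℕ, ∀ n ≥ n₀, nrm S X n ≤ c * nrm T X n := by
  obtain ⟨n₀, hn₀⟩ := h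
  refine ⟨n₀ + 4, fun n hn => ?_⟩
  obtain ⟨l, hl⟩ : ∃ l, l = (n - n % 2 - 2) / 2 := ⟨_, rfl⟩
  rw [nrm, nrm, ← hl]
  have h1 : S.al X l = S.a (pw X (l + l + 1)) := S.a_iso (pwAdd X l l)
  have h2 : T.al X l = finrank W.K (T.C (pw X (l + l + 1))) := by
    rw [← a_eq_of_nondeg (hT _)]
    exact T.a_iso (pwAdd X l l)
  have h3 := hn₀ (l + l + 1) (by omega)
  rw [h1, h2]
  calc (finrank W.K (W.H X) : ℝ) ^ (n % 2 + 1) * S.a (pw X (l + l + 1))
      ≤ (finrank W.K (W.H X) : ℝ) ^ (n % 2 + 1) *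
          (c * finrank W.K (T.C (pw X (l + l + 1)))) :=
        mul_le_mul_of_nonneg_left h3 (by positivity)
    _ = _ := by ring

/-- **The gap law.** -/
theorem gap_law (hST : ∀ X, S.C X ≤ T.C X) (hT : ∀ Q, Sys.Nondeg T Q) (hX : (1 : W.H X) ≠ 0)
    (hZ : (1 : W.H Z) ≠ 0) :
    (∀ n, S.C (Z.prod (pw X n)) = T.C (Z.prod (pw X n))) ∨
      ∀ ε : ℝ, 0 < ε → ∃ n₀ : ℕ, ∀ n ≥ n₀, (finrank W.K (S.C (Z.prod (pw X n))) : ℝ) ≤
        (max (1 / 2 : ℝ) (1 - 1 / (finrank W.K (W.H Z) : ℝ)) + ε) *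
          finrank W.K (T.C (Z.prod (pw X n))) := by
  by_cases hall : ∀ n, S.C (Z.prod (pw X n)) = T.C (Z.prod (pw X n))
  · exact Or.inl hall
  right
  by_cases heq : ∀ n, S.C (pw X n) = T.C (pw X n)
  · -- the classes agree on the powers of `X`
    obtain ⟨u, v, hu, huv, hv, h1, -, h2⟩ := limit_law (Z := Z) hST heq hT hX hZ
    intro ε hε
    have hne : u ≠ v := fun h => hall (h2.1 h)
    have hlt : u + 1 ≤ v := by omega
    have hv0 : (0 : ℝ) < v := by
      have : 0 < v := by omega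
      exact_mod_cast this
    have hβ0 : (0 : ℝ) < finrank W.K (W.H Z) := hv0.trans_le (by exact_mod_cast hv)
    have h3 : (u / v : ℝ) < 1 - 1 / finrank W.K (W.H Z) + ε := by
      have h4 : (u / v : ℝ) ≤ 1 - 1 / v := by
        rw [div_le_iff₀ hv0, sub_mul, one_mul, one_div, inv_mul_cancel₀ hv0.ne',
          le_sub_iff_add_le]
        exact_mod_cast hlt
      have h5 : (1 : ℝ) / finrank W.K (W.H Z) ≤ 1 / v :=
        one_div_le_one_div_of_le hv0 (by exact_mod_cast hv)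
      linarith
    obtain ⟨n₀, hn₀⟩ := eventually_atTop.1 (h1.eventually (gt_mem_nhds h3))
    refine ⟨n₀, fun n hn => ?_⟩
    have h4 := hn₀ n hn
    have h5 : (0 : ℝ) < finrank W.K (T.C (Z.prod (pw X n))) := by
      have h6 : 0 < finrank W.K (T.C (Z.prod (pw X n))) := by
        have h7 := finrank_snd_le hZ T (pw X n)
        have h8 : T.C (pw X n) ≠ ⊥ := by
          intro h
          have := T.one (pw X n)
          rw [h, Submodule.mem_bot] at this
          exact one_ne_pw hX n this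
        have h9 := Submodule.one_le_finrank_iff.2 h8
        omega
      exact_mod_cast h6
    rw [div_lt_iff₀ h5] at h4
    refine h4.le.trans (mul_le_mul_of_nonneg_right ?_ h5.le)
    have := le_max_right (1 / 2 : ℝ) (1 - 1 / (finrank W.K (W.H Z) : ℝ))
    linarith
  -- the classes do not agree on the powers of `X`
  have hbig := big_of_nondeg (T := T) (X := X) (fun n => hT _) hX
  obtain ⟨π, hπ, hmax, -⟩ := exists_max (S := S) (Z := Z) (X := X) (fun _ => le_rfl) Good.zero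
  set u := finrank W.K (LinearMap.range π) with hu
  intro ε hε
  set δ : ℝ := ε / (4 * (u + 1)) with hδ
  have hu0 : (0 : ℝ) ≤ u := Nat.cast_nonneg _
  have hδ0 : 0 < δ := by positivity
  have hδu : (u : ℝ) * δ ≤ ε / 4 := by
    rw [hδ, mul_div_assoc', div_le_div_iff₀ (by positivity) (by norm_num)]
    nlinarith
  have hδ1 : δ ≤ ε / 4 := by
    rw [hδ]
    apply div_le_div_of_nonneg_left hε.le (by norm_num)
    nlinarith
  -- the comparison of `T` on `Z × X^n` and of the norming factor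
  obtain ⟨n₁, hn₁⟩ := nrm_le hbig (δ := 1 / 2) (by norm_num)
  have ht : ∀ n ≥ n₁, nrm T X n ≤ 2 * finrank W.K (T.C (Z.prod (pw X n))) := by
    intro n hn
    have h1 := hn₁ n hn
    rw [a_eq_of_nondeg (hT _)] at h1
    have h2 : (finrank W.K (T.C (pw X n)) : ℝ) ≤ finrank W.K (T.C (Z.prod (pw X n))) := by
      exact_mod_cast finrank_snd_le hZ T (pw X n)
    linarith
  suffices hkey : ∃ n₀ : ℕ, ∀ n ≥ n₀, (finrank W.K (S.C (Z.prod (pw X n))) : ℝ) ≤
      1 / 2 * finrank W.K (T.C (Z.prod (pw X n))) + ε / 2 * nrm T X n by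
    obtain ⟨n₀, hn₀⟩ := hkey
    refine ⟨max n₀ n₁, fun n hn => ?_⟩
    have h1 := hn₀ n ((le_max_left _ _).trans hn)
    have h2 := ht n ((le_max_right _ _).trans hn)
    have h3 := le_max_left (1 / 2 : ℝ) (1 - 1 / (finrank W.K (W.H Z) : ℝ))
    have h4 : (0 : ℝ) ≤ finrank W.K (T.C (Z.prod (pw X n))) := Nat.cast_nonneg _
    nlinarith
  by_cases hN : ∀ n, S.Num (pw X n) = ⊥
  · -- no numerically trivial classes on the powers of `X`
    have hhalf : ∃ n₀ : ℕ, ∀ n ≥ n₀, nrm S X n ≤ (1 / 2 + δ) * nrm T X n := by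
      apply nrm_comp (fun n => hT _)
      rcases S.half T hST X (fun n => hT _) with h | h
      · exact absurd h heq
      · obtain ⟨n₀, hn₀⟩ := h δ hδ0
        refine ⟨n₀, fun n hn => le_trans ?_ (hn₀ n hn)⟩
        have := S.a_add_num (pw X n)
        have h2 : S.a (pw X n) ≤ finrank W.K (S.C (pw X n)) := by omega
        exact_mod_cast h2
    obtain ⟨n₂, hn₂⟩ := hhalf
    obtain ⟨n₃, hn₃⟩ := hπ.low T hbig hST δ hδ0
    refine ⟨max (max n₂ n₃) 2, fun n hn => ?_⟩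
    have h1 := hn₂ n ((le_max_left _ _).trans ((le_max_left _ _).trans hn))
    have h2 := hn₃ n ((le_max_right _ _).trans ((le_max_left _ _).trans hn))
    have h3 := a_le_of_maxi hπ.mem hπ.idem hmax n ((le_max_right _ _).trans hn)
    have h4 := num_le hST hN (hT (Z.prod (pw X n))) hπ
    have hmT : π ∈ T.Op Z Z := Op_mono hST _ _ hπ.mem
    have h5 : T.r Z π (pw X n) + T.r Z (1 - π) (pw X n) ≤
        finrank W.K (T.C (Z.prod (pw X n))) := by
      have hππ : π * π = π := hπ.idem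
      have h6 := r_add_orth T hmT (Submodule.sub_mem _ Sys.Op.id hmT) hπ.idem
        (Sys.finrank_compl hπ.idem).1
        (show π * (1 - π) = 0 by rw [mul_sub, hππ, mul_one, sub_self])
        (show (1 - π) * π = 0 by rw [sub_mul, hππ, one_mul, sub_self]) (pw X n)
      have h7 : π + (LinearMap.id - π) = 1 := by
        rw [add_sub_cancel]; rfl
      rw [h7, Sys.r_one, a_eq_of_nondeg (hT _)] at h6
      exact h6
    have h6 : (T.r Z π (pw X n) : ℝ) + T.r Z (1 - π) (pw X n) ≤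
        finrank W.K (T.C (Z.prod (pw X n))) := by exact_mod_cast h5
    have h7 : (2 : ℝ) * finrank W.K (S.Num (Z.prod (pw X n))) ≤ T.r Z (1 - π) (pw X n) := by
      exact_mod_cast h4
    have h8 : (finrank W.K (S.C (Z.prod (pw X n))) : ℝ) = S.a (Z.prod (pw X n)) +
        finrank W.K (S.Num (Z.prod (pw X n))) := by
      exact_mod_cast (S.a_add_num _).symm
    rw [← hu] at h2 h3
    have h9 := nrm_nonneg (S := T) (X := X) n
    have h10 : (u : ℝ) * nrm S X n ≤ u * ((1 / 2 + δ) * nrm T X n) :=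
      mul_le_mul_of_nonneg_left h1 hu0
    have h11 : (u : ℝ) * δ * nrm T X n ≤ ε / 4 * nrm T X n :=
      mul_le_mul_of_nonneg_right hδu h9
    have h12 : δ * nrm T X n ≤ ε / 4 * nrm T X n := mul_le_mul_of_nonneg_right hδ1 h9
    rw [h8]
    nlinarith
  · -- numerically trivial classes on the powers of `X`
    have hsmall : ∃ n₀ : ℕ, ∀ n ≥ n₀, nrm S X n ≤ δ * nrm T X n := by
      apply nrm_comp (fun n => hT _)
      rcases S.num_or T hST X with h | h
      · exact absurd h hN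
      obtain ⟨N, hN⟩ := exists_nat_gt (1 / δ)
      obtain ⟨n₀, hn₀⟩ := h N
      refine ⟨n₀, fun n hn => ?_⟩
      have h1 : (N : ℝ) * S.a (pw X n) ≤ finrank W.K (T.C (pw X n)) := by
        exact_mod_cast hn₀ n hn
      have h2 : (0 : ℝ) ≤ S.a (pw X n) := Nat.cast_nonneg _
      have h3 : 1 / δ * S.a (pw X n) ≤ finrank W.K (T.C (pw X n)) :=
        (mul_le_mul_of_nonneg_right hN.le h2).trans h1
      rw [one_div, inv_mul_le_iff₀ hδ0] at h3
      exact h3
    obtain ⟨n₂, hn₂⟩ := hsmall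
    refine ⟨max n₂ 2, fun n hn => ?_⟩
    have h1 := hn₂ n ((le_max_left _ _).trans hn)
    have h3 := a_le_of_maxi hπ.mem hπ.idem hmax n ((le_max_right _ _).trans hn)
    have h4 := S.finrank_ge hST (hT (Z.prod (pw X n)))
    have h7 : (S.a (Z.prod (pw X n)) : ℝ) + 2 * finrank W.K (S.Num (Z.prod (pw X n))) ≤
        finrank W.K (T.C (Z.prod (pw X n))) := by
      exact_mod_cast h4
    have h8 : (finrank W.K (S.C (Z.prod (pw X n))) : ℝ) = S.a (Z.prod (pw X n)) +
        finrank W.K (S.Num (Z.prod (pw X n))) := by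
      exact_mod_cast (S.a_add_num _).symm
    rw [← hu] at h3
    have h9 := nrm_nonneg (S := T) (X := X) n
    have h10 : (u : ℝ) * nrm S X n ≤ u * (δ * nrm T X n) :=
      mul_le_mul_of_nonneg_left h1 hu0
    have h11 : (u : ℝ) * δ * nrm T X n ≤ ε / 4 * nrm T X n :=
      mul_le_mul_of_nonneg_right hδu h9
    rw [h8]
    nlinarith

end Pool.Agent.H61.ZX
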