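import Pool.Agent.H61.ZX.Low

/-!
# Maximal idempotents
-/

open CategoryTheory AlgebraicGeometry

universe u v

namespace Pool.Agent.H61.ZX

open Module
open Pool.Agent.H914 Pool.Agent.H914.VarClass Pool.Agent.H914.VarClass.Obj
  Pool.Agent.H914.WeilCohomology Pool.Agent.Y133.Half

variable {k : Type u} [Field k] {𝒱 : VarClass k} {ops : CycleOps 𝒱}
  {W : WeilCohomology.{u, v} ops} {P Q Z X Y P₀ : 𝒱.Obj} {S T : Sys W}

/-- The operators on `Z` which are sums of operators factoring through a power of `X`, by an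
operator of the system `S` followed by an operator of the system `T`. -/
def idl (S T : Sys W) (X Z : 𝒱.Obj) : Submodule W.K (Module.End W.K (W.H Z)) :=
  Submodule.span W.K {f | ∃ n : ℕ, ∃ s ∈ S.Op (pw X n) Z, ∃ v ∈ T.Op Z (pw X n), s ∘ₗ v = f}

lemma Op_mono (hST : ∀ X, S.C X ≤ T.C X) (P Q : 𝒱.Obj) : S.Op P Q ≤ T.Op P Q :=
  Submodule.map_mono (hST _)

lemma idl_le (hST : ∀ X, S.C X ≤ T.C X) : idl S T X Z ≤ T.Op Z Z := by
  refine Submodule.span_le.2 ?_
  rintro _ ⟨n, s, hs, v, hv, rfl⟩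
  exact Sys.Op.comp (Op_mono hST _ _ hs) hv

lemma idl_mono (hST : ∀ X, S.C X ≤ T.C X) : idl S T X Z ≤ idl T T X Z := by
  refine Submodule.span_le.2 ?_
  rintro _ ⟨n, s, hs, v, hv, rfl⟩
  exact Submodule.subset_span ⟨n, s, Op_mono hST _ _ hs, v, hv, rfl⟩

lemma idl_mul {x y : Module.End W.K (W.H Z)} (hx : x ∈ idl S T X Z) (hy : y ∈ T.Op Z Z) :
    x ∘ₗ y ∈ idl S T X Z := by
  refine Submodule.span_induction (p := fun x _ => x ∘ₗ y ∈ idl S T X Z) ?_ ?_ ?_ ?_ hx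
  · rintro _ ⟨n, s, hs, v, hv, rfl⟩
    exact Submodule.subset_span ⟨n, s, hs, v ∘ₗ y, Sys.Op.comp hv hy, rfl⟩
  · rw [LinearMap.zero_comp]; exact Submodule.zero_mem _
  · intro a b _ _ ha hb
    rw [LinearMap.add_comp]; exact Submodule.add_mem _ ha hb
  · intro c a _ ha
    rw [LinearMap.smul_comp]; exact Submodule.smul_mem _ _ ha

/-- The idempotents built from operators of `S`. -/
structure Good (S T : Sys W) (X Z : 𝒱.Obj) (π : Module.End W.K (W.H Z)) : Prop where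
  mem : π ∈ T.Op Z Z
  idem : π ∘ₗ π = π
  gen : π ∈ idl S T X Z
  low : ∀ U : Sys W, Big U X → (∀ X, T.C X ≤ U.C X) → Low U X Z π

lemma Good.zero : Good S T X Z 0 :=
  ⟨Submodule.zero_mem _, LinearMap.zero_comp _, Submodule.zero_mem _, fun _ _ _ => low_zero⟩

lemma Good.mono (hST : ∀ X, S.C X ≤ T.C X) {π : Module.End W.K (W.H Z)} (h : Good S T X Z π) :
    Good T T X Z π := ⟨h.mem, h.idem, idl_mono hST h.gen, h.low⟩

/-- The operators `P → Z` which are orthogonal to `1 - π`. -/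
def Maxi (S T : Sys W) (X Z : 𝒱.Obj) (π : Module.End W.K (W.H Z)) : Prop :=
  ∀ n : ℕ, ∀ s ∈ S.Op (pw X n) Z, ∀ t ∈ T.Op Z (pw X n),
    LinearMap.trace W.K (W.H Z) (par (W.isInternal Z) ∘ₗ (1 - π) ∘ₗ s ∘ₗ t) = 0

lemma exists_max_aux (hST : ∀ X, S.C X ≤ T.C X) : ∀ (d : ℕ) (π₀ : Module.End W.K (W.H Z)),
    Good S T X Z π₀ → finrank W.K (W.H Z) - finrank W.K (LinearMap.range π₀) ≤ d →
    ∃ π, Good S T X Z π ∧ Maxi S T X Z π ∧
      (π = π₀ ∨ finrank W.K (LinearMap.range π₀) < finrank W.K (LinearMap.range π)) := by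
  intro d
  induction d with
  | zero =>
    intro π₀ h0 hd
    refine ⟨π₀, h0, ?_, Or.inl rfl⟩
    intro n s hs t ht
    by_contra hne
    obtain ⟨f, hf, hff, hf0, hπf, hfπ, v, hv, hfv⟩ :=
      exists_new' T h0.mem h0.idem (Op_mono hST _ _ hs) ht hne
    have h1 := (rank_add_orth (K := W.K) h0.idem hff hπf hfπ).2
    have h2 := Sys.finrank_range_pos hf0
    have h3 : finrank W.K (LinearMap.range (π₀ + f)) ≤ finrank W.K (W.H Z) :=
      Submodule.finrank_le _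
    omega
  | succ d ih =>
    intro π₀ h0 hd
    by_cases hmax : Maxi S T X Z π₀
    · exact ⟨π₀, h0, hmax, Or.inl rfl⟩
    unfold Maxi at hmax
    push Not at hmax
    obtain ⟨n, s, hs, t, ht, hne⟩ := hmax
    obtain ⟨f, hf, hff, hf0, hπf, hfπ, v, hv, hfv⟩ :=
      exists_new' T h0.mem h0.idem (Op_mono hST _ _ hs) ht hne
    have h1 := rank_add_orth (K := W.K) h0.idem hff hπf hfπ
    have h2 := Sys.finrank_range_pos hf0
    have h1π : (1 - π₀) ∈ T.Op Z Z := Submodule.sub_mem _ Sys.Op.id h0.mem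
    have hu : (1 - π₀) ∘ₗ s ∈ T.Op (pw X n) Z := Sys.Op.comp h1π (Op_mono hST _ _ hs)
    have hfgen : f ∈ idl S T X Z := by
      have e1 : f = s ∘ₗ v - π₀ ∘ₗ (s ∘ₗ v) := by
        rw [hfv, LinearMap.sub_comp, LinearMap.sub_comp]
        rfl
      rw [e1]
      exact Submodule.sub_mem _ (Submodule.subset_span ⟨n, s, hs, v, hv, rfl⟩)
        (idl_mul h0.gen (Sys.Op.comp (Op_mono hST _ _ hs) hv))
    have hgood : Good S T X Z (π₀ + f) := by
      refine ⟨Submodule.add_mem _ h0.mem hf, h1.1, Submodule.add_mem _ h0.gen hfgen, ?_⟩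
      intro U hU hTU
      refine low_add (Op_mono hTU _ _ h0.mem) (Op_mono hTU _ _ hf) h0.idem hff hπf hfπ
        (h0.low U hU hTU) ?_
      exact low_of_fac hU (Op_mono hTU _ _ hf) hff (Op_mono hTU _ _ hu) (Op_mono hTU _ _ hv)
        hfv.symm
    obtain ⟨π, hπ1, hπ2, hπ3⟩ := ih (π₀ + f) hgood (by
      have h3 : finrank W.K (LinearMap.range (π₀ + f)) ≤ finrank W.K (W.H Z) :=
        Submodule.finrank_le _
      omega)
    refine ⟨π, hπ1, hπ2, Or.inr ?_⟩
    rcases hπ3 with rfl | hπ3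
    · omega
    · omega

theorem exists_max (hST : ∀ X, S.C X ≤ T.C X) {π₀ : Module.End W.K (W.H Z)}
    (h0 : Good S T X Z π₀) : ∃ π, Good S T X Z π ∧ Maxi S T X Z π ∧
      (π = π₀ ∨ finrank W.K (LinearMap.range π₀) < finrank W.K (LinearMap.range π)) :=
  exists_max_aux hST _ π₀ h0 le_rfl

end Pool.Agent.H61.ZX
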