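import Pool.Agent.H61.ZX.Iden

/-!
# Numerically trivial classes form an isotropic subspace
-/

open CategoryTheory AlgebraicGeometry

universe u v

namespace Pool.Agent.H61.ZX

open Module
open Pool.Agent.H914 Pool.Agent.H914.VarClass Pool.Agent.H914.VarClass.Obj
  Pool.Agent.H914.WeilCohomology Pool.Agent.Y133.Half

/-- An isotropic subspace meeting neither kernel has dimension at most half of the rank. -/
lemma isotropic_le {K V : Type*} [Field K] [AddCommGroup V] [Module K V] [FiniteDimensional K V]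
    (Φ : V →ₗ[K] V →ₗ[K] K) (N : Submodule K V) (h0 : ∀ x ∈ N, ∀ y ∈ N, Φ x y = 0)
    (hl : ∀ x ∈ N, Φ x = 0 → x = 0) (hr : ∀ x ∈ N, Φ.flip x = 0 → x = 0) :
    2 * finrank K N ≤ rk Φ := by
  let β : N →ₗ[K] V →ₗ[K] K := Φ.flip ∘ₗ N.subtype
  have h1 : rk β = finrank K N := by
    have h2 : Function.Injective β := by
      rw [← LinearMap.ker_eq_bot, LinearMap.ker_eq_bot']
      intro x hx
      exact Subtype.ext (hr x x.2 hx)
    exact LinearMap.finrank_range_of_inj h2
  have h2 := rk_flip β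
  have h3 := LinearMap.finrank_range_add_finrank_ker β.flip
  have h4 := LinearMap.finrank_range_add_finrank_ker Φ
  have h5 : LinearMap.ker Φ ⊔ N ≤ LinearMap.ker β.flip := by
    refine sup_le ?_ ?_
    · intro x hx
      rw [LinearMap.mem_ker] at hx ⊢
      apply LinearMap.ext
      intro y
      change Φ x y = 0
      rw [hx]
      rfl
    · intro x hx
      rw [LinearMap.mem_ker]
      apply LinearMap.ext
      intro y
      exact h0 x hx y y.2
  have h6 := Submodule.finrank_sup_add_finrank_inf_eq (LinearMap.ker Φ) N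
  have h7 : LinearMap.ker Φ ⊓ N = ⊥ := by
    rw [eq_bot_iff]
    rintro x ⟨hx, hx'⟩
    rw [Submodule.mem_bot]
    exact hl x hx' (LinearMap.mem_ker.1 hx)
  rw [h7, finrank_bot, add_zero] at h6
  have h8 := Submodule.finrank_mono h5
  change rk β.flip + _ = _ at h3
  change rk Φ + _ = _ at h4
  omega

variable {k : Type u} [Field k] {𝒱 : VarClass k} {ops : CycleOps 𝒱}
  {W : WeilCohomology.{u, v} ops} {P Q Z X Y P₀ : 𝒱.Obj} {S T : Sys W}

lemma NOp_eq_zero (hN : ∀ n, S.Num (pw X n) = ⊥) {n m : ℕ}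
    {t : W.H (pw X n) →ₗ[W.K] W.H (pw X m)} (ht : t ∈ S.NOp (pw X n) (pw X m)) : t = 0 := by
  obtain ⟨c, hc, rfl⟩ := Sys.mem_NOp.1 ht
  have h1 : W.map (pwAdd X n m).inv c ∈ S.Num (pw X (n + m + 1)) := Sys.Num.map _ hc
  rw [hN, Submodule.mem_bot] at h1
  have h2 := congrArg (W.map (pwAdd X n m).hom) h1
  rw [← W.map_comp, Iso.hom_inv_id, W.map_id, map_zero] at h2
  rw [h2, corr_zero]

lemma idl_comp_N (hN : ∀ n, S.Num (pw X n) = ⊥) {x : Module.End W.K (W.H Z)}
    (hx : x ∈ idl S S X Z) {n : ℕ} {t : W.H (pw X n) →ₗ[W.K] W.H Z}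
    (ht : t ∈ S.NOp (pw X n) Z) : x ∘ₗ t = 0 := by
  refine Submodule.span_induction (p := fun x _ => x ∘ₗ t = 0) ?_ ?_ ?_ ?_ hx
  · rintro _ ⟨m, s, hs, v, hv, rfl⟩
    rw [LinearMap.comp_assoc, NOp_eq_zero hN (Sys.NOp.comp_left hv ht), LinearMap.comp_zero]
  · rw [LinearMap.zero_comp]
  · intro a b _ _ ha hb
    rw [LinearMap.add_comp, ha, hb, add_zero]
  · intro c a _ ha
    rw [LinearMap.smul_comp, ha, smul_zero]

lemma N_comp_idl (hN : ∀ n, S.Num (pw X n) = ⊥) {x : Module.End W.K (W.H Z)}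
    (hx : x ∈ idl S S X Z) {n : ℕ} {t : W.H Z →ₗ[W.K] W.H (pw X n)}
    (ht : t ∈ S.NOp Z (pw X n)) : t ∘ₗ x = 0 := by
  refine Submodule.span_induction (p := fun x _ => t ∘ₗ x = 0) ?_ ?_ ?_ ?_ hx
  · rintro _ ⟨m, s, hs, v, hv, rfl⟩
    rw [← LinearMap.comp_assoc, NOp_eq_zero hN (Sys.NOp.comp_right ht hs), LinearMap.zero_comp]
  · rw [LinearMap.comp_zero]
  · intro a b _ _ ha hb
    rw [LinearMap.comp_add, ha, hb, add_zero]
  · intro c a _ ha
    rw [LinearMap.comp_smul, ha, smul_zero]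

/-- **The numerically trivial classes.** -/
theorem num_le (hST : ∀ X, S.C X ≤ T.C X) (hN : ∀ n, S.Num (pw X n) = ⊥) {n : ℕ}
    (hT : Sys.Nondeg T (Z.prod (pw X n))) {π : Module.End W.K (W.H Z)}
    (hπ : Good S S X Z π) :
    2 * finrank W.K (S.Num (Z.prod (pw X n))) ≤ T.r Z (1 - π) (pw X n) := by
  have hev : Ev W π := Sys.Op.ev hπ.mem
  obtain ⟨π', hπ', hadj⟩ := Sys.Op.exists_adj hπ.mem
  have hadj' : Adj W π' π := hadj.symm hev (Sys.Op.ev hπ')
  -- `π ⊗ 1` vanishes on the numerically trivial classes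
  have e1 : ∀ c ∈ S.Num (Z.prod (pw X n)), extOp W π 1 c = 0 := by
    intro c hc
    have h1 : W.map (swap (pw X n) Z) c ∈ S.Num ((pw X n).prod Z) := Sys.Num.map _ hc
    have h2 := idl_comp_N hN hπ.gen (Sys.NOp.corr h1)
    rw [← corr_one_ext hev, ← ext_swap hev] at h2
    have h3 := congrArg (W.map (swap Z (pw X n))) (corr_inj h2)
    rwa [swap_swap, map_zero] at h3
  have e2 : ∀ c ∈ S.Num (Z.prod (pw X n)), extOp W π' 1 c = 0 := by
    intro c hc
    have h2 := N_comp_idl hN hπ.gen (Sys.NOp.corr hc)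
    have h3 : W.corr (extOp W π' 1 c) = 1 ∘ₗ W.corr c ∘ₗ π := corr_extOp hadj' hev Ev.id c
    rw [h2, LinearMap.comp_zero] at h3
    exact corr_inj h3
  have hsub : ∀ (g : Module.End W.K (W.H Z)) (c : W.H (Z.prod (pw X n))),
      extOp W (1 - g) 1 c = c - extOp W g 1 c := by
    intro g c
    have h1 : extOp W (1 - g) (1 : Module.End W.K (W.H (pw X n))) = 1 - extOp W g 1 := by
      apply xp_ext
      intro i j a _ b _
      rw [extOp_xp, LinearMap.sub_apply, LinearMap.sub_apply, extOp_xp, Module.End.one_apply,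
        Module.End.one_apply, Module.End.one_apply, sub_eq_add_neg, xp_add_left,
        sub_eq_add_neg]
      congr 1
      have h2 := xp_add_left (W := W) (-(g a)) (g a) b
      rw [neg_add_cancel] at h2
      have h3 : xp W (0 : W.H Z) b = 0 := by rw [xp, map_zero, zero_mul]
      rw [h3] at h2
      exact eq_neg_of_add_eq_zero_left h2.symm
    rw [h1]
    rfl
  have hadj1 : Adj W (extOp W (1 - π) (1 : Module.End W.K (W.H (pw X n))))
      (extOp W (1 - π') 1) :=
    (Adj.one.sub hadj).extOp Adj.one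
      (Sys.Op.ev (Submodule.sub_mem _ Sys.Op.id hπ')) Ev.id
  let N : Submodule W.K (T.C (Z.prod (pw X n))) :=
    (S.Num (Z.prod (pw X n))).comap (T.C (Z.prod (pw X n))).subtype
  have hN' : finrank W.K N = finrank W.K (S.Num (Z.prod (pw X n))) := by
    have h1 : N.map (T.C (Z.prod (pw X n))).subtype = S.Num (Z.prod (pw X n)) := by
      rw [Submodule.map_comap_subtype]
      exact inf_eq_right.2 fun x hx => hST _ hx.1
    rw [← h1]
    exact (Submodule.equivMapOfInjective _ (Submodule.subtype_injective _) _).finrank_eq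
  rw [← hN']
  have h1π : (1 - π) ∈ T.Op Z Z := Submodule.sub_mem _ Sys.Op.id (Op_mono hST _ _ hπ.mem)
  refine isotropic_le (T.F (Z.prod (pw X n)) (extOp W (1 - π) 1)) N ?_ ?_ ?_
  · intro c hc d hd
    rw [Sys.F_apply, hsub, e1 (c : W.H _) hc, sub_zero]
    exact hc.2 d hd.1
  · intro c hc h
    apply Subtype.ext
    refine hT c c.2 fun y hy => ?_
    have h1 := congrArg (fun f : T.C (Z.prod (pw X n)) →ₗ[W.K] W.K => f ⟨y, hy⟩) h
    simp only [Sys.F_apply, LinearMap.zero_apply] at h1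
    rw [hsub, e1 (c : W.H _) hc, sub_zero] at h1
    exact h1
  · intro c hc h
    apply Subtype.ext
    refine hT c c.2 fun y hy => ?_
    have h1 := congrArg (fun f : T.C (Z.prod (pw X n)) →ₗ[W.K] W.K => f ⟨y, hy⟩) h
    rw [LinearMap.flip_apply, Sys.F_apply, LinearMap.zero_apply, hadj1, hsub,
      e2 (c : W.H _) hc, sub_zero] at h1
    rw [PH.even_comm (T.even c.2)]
    exact h1

end Pool.Agent.H61.ZX
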