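import Mathlib

/-!
# Asymptotic proportions
-/

namespace Pool.Agent.H61.ZX

/-- For every `ε > 0` we have `a n ≤ (c + ε) t n` for all sufficiently large `n`. -/
def AtMost (c : ℝ) (a t : ℕ → ℕ) : Prop :=
  ∀ ε : ℝ, 0 < ε → ∃ n₀ : ℕ, ∀ n ≥ n₀, (a n : ℝ) ≤ (c + ε) * (t n : ℝ)

/-- The quotients `a n / t n` tend to `c`. -/
def RatioTendsTo (a t : ℕ → ℕ) (c : ℝ) : Prop :=
  Filter.Tendsto (fun n => (a n : ℝ) / (t n : ℝ)) Filter.atTop (nhds c)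

end Pool.Agent.H61.ZX
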