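import Pool.Agent.H61.ZX.SSLaw
import Pool.Agent.H61.ZX.Defs
import Pool.Graph.R_seed8.Y133.Half.TrueTate
import Pool.Graph.R_pool_sql_team_seeded_35f281b4.K7.H8.TH.Thm

/-!
# The systems of Tate classes and of generalised Tate classes
-/

open CategoryTheory AlgebraicGeometry

universe u v

namespace Pool.Agent.H61.ZX

open Module
open Pool.Agent.H914 Pool.Agent.H914.VarClass Pool.Agent.H914.VarClass.Obj
  Pool.Agent.H914.WeilCohomology Pool.Agent.W534 Pool.Agent.H281R3.HT Pool.Agent.Y133.Half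

variable {k : Type u} [Field k] {𝒱 : VarClass k} {ops : CycleOps 𝒱}
  {W : WeilCohomology.{u, v} ops} {Q Z X : 𝒱.Obj} {p : ℕ} (Φ : FrobSystem W p)

lemma tateSys_nondeg (Q : 𝒱.Obj) : Sys.Nondeg (tateSys Φ) Q := fun _ hx h => TC.nondeg hx h

lemma exists_tate_one (hZ : (1 : W.H Z) ≠ 0) : ∃ l ∈ (trueTateSys Φ).C Z, W.tr Z l = 1 := by
  obtain ⟨l, -, hl1⟩ := exists_lam_of_nondeg (T := tateSys Φ) (tateSys_nondeg Φ Z) hZ
  have h1 : ∀ x : W.H Z, W.tr Z x = W.tr Z (proj (W.isInternal Z) (2 * Z.dim) x) := by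
    intro x
    refine gr_induction (W.isInternal Z) (p := fun x => W.tr Z x =
      W.tr Z (proj (W.isInternal Z) (2 * Z.dim) x)) ?_ ?_ x
    · intro i a ha
      by_cases hi : i = 2 * Z.dim
      · subst hi
        rw [proj_same _ ha]
      · rw [proj_ne _ ha hi, map_zero]
        exact W.tr_eq_zero ha hi
    · intro a b ha hb
      rw [map_add, ha, hb, map_add, map_add]
  refine ⟨proj (W.isInternal Z) (2 * Z.dim) l, TSpan.of (j := Z.dim) ?_, by rw [← h1, hl1]⟩
  have h2 := proj_mem (W.isInternal Z) (2 * Z.dim) l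
  refine ⟨h2, 1, one_pos, ?_⟩
  have h3 := Φ.deg h2
  rw [mul_one]
  have h4 : W534.iter (Φ.Fr Z) 1 = Φ.Fr Z := by
    change 𝟙 Z ≫ Φ.Fr Z = Φ.Fr Z
    rw [Category.id_comp]
  rw [h4]
  exact h3

/-- A generalised Tate class of order two gives a Tate class orthogonal to all Tate classes. -/
lemma orth_of_order_two {s j : ℕ} {x : W.H Q} (hx : x ∈ W.gr Q (2 * j)) {y : W.H Q}
    (h1 : frob Φ Q s x = ((card Φ Q s : W.K) ^ j) • x + y)
    (h2 : frob Φ Q s y = ((card Φ Q s : W.K) ^ j) • y) (hy : y ∈ W.gr Q (2 * j)) (hs : 0 < s) :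
    ∀ d ∈ TSpan Φ Q, W.tr Q (y * d) = 0 := by
  intro d hd
  refine TSpan.ind (q := fun d => W.tr Q (y * d) = 0) ?_ ?_ ?_ ?_ hd
  · intro l t ht
    rw [isTate_iff] at ht
    obtain ⟨htg, r, hr, ht⟩ := ht
    by_cases hjl : j + l = Q.dim
    · obtain ⟨r', rfl⟩ : ∃ r', r = r' + 1 := ⟨r - 1, by omega⟩
      -- `F ^ (s (r' + 1))`
      have e1 : frob Φ Q (s * (r' + 1)) x = ((card Φ Q s : W.K) ^ j) ^ (r' + 1) • x +
          (((r' + 1 : ℕ) : W.K) * ((card Φ Q s : W.K) ^ j) ^ r') • y := by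
        rw [frob_mul_eq]
        exact Pool.Agent.K7.H8.TH.pow_apply_of h1 h2 r'
      have e2 := eig_mul' ht s
      set μ : W.K := (card Φ Q (s * (r' + 1)) : W.K) ^ j with hμ
      set μ' : W.K := (card Φ Q (s * (r' + 1)) : W.K) ^ l with hμ'
      have hμμ : μ * μ' = (card Φ Q (s * (r' + 1)) : W.K) ^ Q.dim := by
        rw [hμ, hμ', ← pow_add, hjl]
      have hμe : ((card Φ Q s : W.K) ^ j) ^ (r' + 1) = μ := by
        rw [hμ, card_mul_eq, Nat.cast_pow, ← pow_mul, ← pow_mul, mul_comm]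
      have h3 := tr_adj Φ hμμ x t
      have h4 : (frob Φ Q (s * (r' + 1)) - μ' • 1) t = 0 := by
        rw [LinearMap.sub_apply, e2, LinearMap.smul_apply, Module.End.one_apply, sub_self]
      have h5 : (frob Φ Q (s * (r' + 1)) - μ • 1) x =
          (((r' + 1 : ℕ) : W.K) * ((card Φ Q s : W.K) ^ j) ^ r') • y := by
        rw [LinearMap.sub_apply, e1, LinearMap.smul_apply, Module.End.one_apply, hμe,
          add_sub_cancel_left]
      rw [h4, h5, mul_zero, map_zero, smul_mul_assoc, map_smul, smul_eq_mul] at h3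
      have h6 : μ' ≠ 0 := pow_ne_zero _ (card_ne Φ _)
      have h7 : (((r' + 1 : ℕ) : W.K) * ((card Φ Q s : W.K) ^ j) ^ r') ≠ 0 :=
        mul_ne_zero (Nat.cast_ne_zero.2 (Nat.succ_ne_zero r'))
          (pow_ne_zero _ (pow_ne_zero _ (card_ne Φ _)))
      rcases mul_eq_zero.1 h3.symm with h8 | h8
      · exact absurd (neg_eq_zero.1 h8) h6
      · exact (mul_eq_zero.1 h8).resolve_left h7
    · exact W.tr_eq_zero (W.mul_mem hy htg) (by omega)
  · rw [mul_zero, map_zero]
  · intro a b ha hb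
    rw [mul_add, map_add, ha, hb, add_zero]
  · intro c a ha
    rw [mul_smul_comm, map_smul, ha, smul_zero]

/-- If no Tate class is orthogonal to all Tate classes, all generalised Tate classes are Tate
classes. -/
lemma eig_of_num (h : (trueTateSys Φ).Num Q = ⊥) {s j : ℕ} (hs : 0 < s) {x : W.H Q}
    (hx : x ∈ genTate Φ Q s j) : frob Φ Q s x = ((card Φ Q s : W.K) ^ j) • x := by
  obtain ⟨⟨n, hn⟩, hg⟩ := (mem_genTate Φ).1 hx
  set N : Module.End W.K (W.H Q) :=
    frob Φ Q s - ((card Φ Q s : W.K) ^ j) • (1 : Module.End W.K (W.H Q)) with hN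
  have hgr : ∀ z ∈ W.gr Q (2 * j), N z ∈ W.gr Q (2 * j) := by
    intro z hz
    rw [hN, LinearMap.sub_apply, LinearMap.smul_apply, Module.End.one_apply]
    exact Submodule.sub_mem _ (W.map_mem _ hz) (Submodule.smul_mem _ _ hz)
  have hgrn : ∀ m, ∀ z ∈ W.gr Q (2 * j), (N ^ m) z ∈ W.gr Q (2 * j) := by
    intro m
    induction m with
    | zero => intro z hz; exact hz
    | succ m ih =>
      intro z hz
      rw [pow_succ', Module.End.mul_apply]
      exact hgr _ (ih z hz)
  have hstep : ∀ z ∈ W.gr Q (2 * j), N (N z) = 0 → N z = 0 := by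
    intro z hz h0
    have e1 : frob Φ Q s z = ((card Φ Q s : W.K) ^ j) • z + N z := by
      rw [hN, LinearMap.sub_apply, LinearMap.smul_apply, Module.End.one_apply]
      abel
    have e2 : frob Φ Q s (N z) = ((card Φ Q s : W.K) ^ j) • N z := by
      have h1 : N (N z) = frob Φ Q s (N z) - ((card Φ Q s : W.K) ^ j) • N z := rfl
      rw [h0] at h1
      exact (sub_eq_zero.1 h1.symm)
    have h2 := orth_of_order_two Φ hz e1 e2 (hgr z hz) hs
    have h3 : N z ∈ (trueTateSys Φ).Num Q :=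
      ⟨TSpan.of (j := j) (isTate_iff.2 ⟨hgr z hz, s, hs, e2⟩), h2⟩
    rwa [h, Submodule.mem_bot] at h3
  have hall : ∀ m, (N ^ (m + 1)) x = 0 → N x = 0 := by
    intro m
    induction m with
    | zero => intro h; rwa [zero_add, pow_one] at h
    | succ m ih =>
      intro h
      apply ih
      rw [pow_succ', Module.End.mul_apply]
      apply hstep _ (hgrn m x hg)
      rw [pow_succ', Module.End.mul_apply, pow_succ', Module.End.mul_apply] at h
      exact h
  have h0 : N x = 0 := by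
    rcases n with _ | n
    · rw [pow_zero, Module.End.one_apply] at hn
      rw [hn, map_zero]
    · exact hall n hn
  rw [hN, LinearMap.sub_apply, LinearMap.smul_apply, Module.End.one_apply] at h0
  exact sub_eq_zero.1 h0

lemma trueTate_eq_of_num (h : (trueTateSys Φ).Num Q = ⊥) :
    (trueTateSys Φ).C Q = (tateSys Φ).C Q := by
  refine le_antisymm (TSpan_le Φ Q) ?_
  intro x hx
  refine TC.ind (q := fun x => x ∈ TSpan Φ Q) ?_ ?_ ?_ hx
  · intro s j hs x hx
    exact TSpan.of (j := j) (isTate_iff.2 ⟨hx.2, s, hs, eig_of_num Φ h hs hx⟩)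
  · exact Submodule.zero_mem _
  · intro x y hx hy; exact Submodule.add_mem _ hx hy

/-- All generalised Tate classes on `Q`, over all finite fields, are eigenvectors. -/
def AllSemisimple (Q : 𝒱.Obj) : Prop :=
  ∀ s j : ℕ, 0 < s → ∀ c ∈ genTate Φ Q s j,
    W.map (W534.iter (Φ.Fr Q) s) c = ((card Φ Q s : W.K) ^ j) • c

lemma allSemisimple_iff : AllSemisimple Φ Q ↔ (trueTateSys Φ).C Q = (tateSys Φ).C Q := by
  constructor
  · intro h
    refine le_antisymm (TSpan_le Φ Q) ?_
    intro x hx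
    refine TC.ind (q := fun x => x ∈ TSpan Φ Q) ?_ ?_ ?_ hx
    · intro s j hs x hx
      exact TSpan.of (j := j) (isTate_iff.2 ⟨hx.2, s, hs, h s j hs x hx⟩)
    · exact Submodule.zero_mem _
    · intro x y hx hy; exact Submodule.add_mem _ hx hy
  · intro h s j hs c hc
    refine eig_of_num Φ ?_ hs hc
    rw [eq_bot_iff]
    rintro x ⟨hx, hx'⟩
    rw [Submodule.mem_bot]
    rw [h] at hx hx'
    exact tateSys_nondeg Φ Q x hx hx'

/-- The linear combinations of Tate classes on `Q` which are orthogonal to all Tate classes. -/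
def tateNull (Q : 𝒱.Obj) : Set (W.H Q) :=
  {c | c ∈ Submodule.span W.K (tateSet Φ Q) ∧ ∀ d ∈ tateSet Φ Q, W.tr Q (c * d) = 0}

lemma tateNull_eq : tateNull Φ Q = ((trueTateSys Φ).Num Q : Set (W.H Q)) := by
  ext c
  constructor
  · rintro ⟨h1, h2⟩
    refine ⟨h1, fun d hd => ?_⟩
    refine TSpan.ind (q := fun d => W.tr Q (c * d) = 0) ?_ ?_ ?_ ?_ hd
    · intro l t ht; exact h2 t ⟨l, ht⟩
    · rw [mul_zero, map_zero]
    · intro a b ha hb
      rw [mul_add, map_add, ha, hb, add_zero]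
    · intro c a ha
      rw [mul_smul_comm, map_smul, ha, smul_zero]
  · rintro ⟨h1, h2⟩
    refine ⟨h1, fun d hd => h2 d ?_⟩
    obtain ⟨j, hj⟩ := hd
    exact TSpan.of hj

/-- The rank of the intersection form on the space of the Tate classes on `Q`: the dimension of
the space of the Tate classes modulo those that are orthogonal to all Tate classes. -/
noncomputable def tateRank (Q : 𝒱.Obj) : ℕ := tateDim Φ Q - dimOf W (tateNull Φ Q)

lemma tateRank_eq : tateRank Φ Q = (trueTateSys Φ).a Q := by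
  have h := (trueTateSys Φ).a_add_num Q
  have h1 : dimOf W (tateNull Φ Q) = finrank W.K ((trueTateSys Φ).Num Q) := by
    rw [dimOf, Set.finrank, tateNull_eq, Submodule.span_eq]
  rw [tateRank, tateDim_eq, h1]
  exact (Nat.eq_sub_of_add_eq h).symm

lemma a_mono {S T : Sys W} (h : S.C Q ≤ T.C Q) : S.a Q ≤ T.a Q := by
  have h2 : S.F Q 1 = (T.F Q 1).compl₁₂ (Submodule.inclusion h) (Submodule.inclusion h) := rfl
  rw [Sys.a, Sys.a, h2]
  exact rk_comp_le _ _ _

end Pool.Agent.H61.ZX
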