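import Pool.Agent.H61.ZX.Unif

/-!
# Numerical and homological equivalence on mixed products
-/

open CategoryTheory AlgebraicGeometry

universe u v

namespace Pool.Agent.H61.ZX

open Module Filter Topology
open Pool.Agent.H914 Pool.Agent.H914.VarClass Pool.Agent.H914.VarClass.Obj
  Pool.Agent.H914.WeilCohomology Pool.Agent.Y133.Half

variable {k : Type u} [Field k] {𝒱 : VarClass k} {ops : CycleOps 𝒱}
  {W : WeilCohomology.{u, v} ops} {P Q Z X Y P₀ : 𝒱.Obj} {S : Sys W}

lemma rank_add_two_le (hN : ∀ n, S.Num (pw X n) = ⊥) {π : Module.End W.K (W.H Z)}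
    (hπ : Good S S X Z π) {m : ℕ} (h : S.Num (Z.prod (pw X m)) ≠ ⊥) :
    finrank W.K (LinearMap.range π) + 2 ≤ finrank W.K (W.H Z) := by
  obtain ⟨c, hc, hc0⟩ := Submodule.exists_mem_ne_zero_of_ne_bot h
  have ht : W.corr c ∈ S.NOp Z (pw X m) := Sys.NOp.corr hc
  have ht0 : W.corr c ≠ 0 := fun h => hc0 (corr_inj h)
  have hs : W.corr (W.map (swap (pw X m) Z) c) ∈ S.NOp (pw X m) Z :=
    Sys.NOp.corr (Sys.Num.map _ hc)
  have hadj := tr_corr' (W := W) (c := c) (S.even hc.1)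
  set t := W.corr c with htdef
  set s := W.corr (W.map (swap (pw X m) Z) c) with hsdef
  have hs0 : s ≠ 0 := by
    intro h0
    apply ht0
    apply LinearMap.ext
    intro a
    apply W.tr_ext
    intro b
    rw [hadj, h0, LinearMap.zero_apply, LinearMap.zero_apply, mul_zero, zero_mul, map_zero,
      map_zero]
  have e1 : t ∘ₗ π = 0 := N_comp_idl hN hπ.gen ht
  have e2 : π ∘ₗ s = 0 := idl_comp_N hN hπ.gen hs
  have e3 : t ∘ₗ s = 0 := NOp_eq_zero hN (Sys.NOp.comp_right ht (Sys.NOp.op hs))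
  have h1 : LinearMap.range π ⊔ LinearMap.range s ≤ LinearMap.ker t := by
    refine sup_le ?_ ?_
    · rintro _ ⟨x, rfl⟩
      exact congrArg (fun f => f x) e1
    · rintro _ ⟨x, rfl⟩
      exact congrArg (fun f => f x) e3
  have h2 : LinearMap.range π ⊓ LinearMap.range s = ⊥ := by
    rw [eq_bot_iff]
    rintro x ⟨⟨y, hy⟩, ⟨w, hw⟩⟩
    rw [Submodule.mem_bot]
    have h3 : π x = x := by
      rw [← hy]
      exact congrArg (fun f => f y) hπ.idem
    have h4 : π x = 0 := by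
      rw [← hw]
      exact congrArg (fun f => f w) e2
    rw [← h3, h4]
  have h3 := Submodule.finrank_sup_add_finrank_inf_eq (LinearMap.range π) (LinearMap.range s)
  rw [h2, finrank_bot, add_zero] at h3
  have h4 := Submodule.finrank_mono h1
  have h5 := LinearMap.finrank_range_add_finrank_ker t
  have h6 : 1 ≤ finrank W.K (LinearMap.range s) := by
    rw [Nat.one_le_iff_ne_zero]
    intro h
    exact hs0 (LinearMap.range_eq_bot.1 (Submodule.finrank_eq_zero.1 h))
  have h7 : 1 ≤ finrank W.K (LinearMap.range t) := by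
    rw [Nat.one_le_iff_ne_zero]
    intro h
    exact ht0 (LinearMap.range_eq_bot.1 (Submodule.finrank_eq_zero.1 h))
  omega

lemma nondeg_of_num (h : S.Num Q = ⊥) : Sys.Nondeg S Q := by
  intro x hx h'
  have h1 : x ∈ S.Num Q := ⟨hx, h'⟩
  rwa [h, Submodule.mem_bot] at h1

lemma a_eq_r {π : Module.End W.K (W.H Z)} (hπ : π ∈ S.Op Z Z)
    (h : Maxi S S X Z π) (n : ℕ) : S.a (Z.prod (pw X n)) = S.r Z π (pw X n) := by
  apply le_antisymm
  · have h1 := S.r_add_le (P := Z) (Z := pw X n) π (1 - π)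
    rw [add_sub_cancel, Sys.r_one, r_compl_eq_zero hπ h, add_zero] at h1
    exact h1
  · have h1 := r_mono S (f := 1) hπ Sys.Op.id rfl (pw X n)
    rw [Sys.r_one] at h1
    exact h1

/-- **Integrality**, if numerically trivial classes on the powers of `X` vanish. -/
theorem integrality (hN : ∀ n, S.Num (pw X n) = ⊥) (hX : (1 : W.H X) ≠ 0) :
    ∃ u : ℕ, u ≤ finrank W.K (W.H Z) ∧
      Tendsto (fun n => (S.a (Z.prod (pw X n)) : ℝ) / S.a (pw X n)) atTop (𝓝 u) ∧
      ((∃ n, S.Num (Z.prod (pw X n)) ≠ ⊥) → u + 2 ≤ finrank W.K (W.H Z) ∧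
        ∀ ε : ℝ, 0 < ε → ∃ n₀ : ℕ, ∀ n ≥ n₀, (S.a (Z.prod (pw X n)) : ℝ) ≤
          (1 - 1 / ((finrank W.K (W.H Z) : ℝ) - 1) + ε) *
            finrank W.K (S.C (Z.prod (pw X n)))) := by
  have hbig := big_of_nondeg (T := S) (X := X) (fun n => nondeg_of_num (hN n)) hX
  obtain ⟨π, hπ, hmax, -⟩ := exists_max (S := S) (Z := Z) (X := X) (fun _ => le_rfl) Good.zero
  have t1 := tendsto_r hbig hπ.mem hπ.idem (hπ.low S hbig fun _ => le_rfl)
  have t2 := tendsto_X hbig fun n => nondeg_of_num (hN n)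
  have e1 : ∀ n, S.r Z π (pw X n) = S.a (Z.prod (pw X n)) := fun n =>
    (a_eq_r hπ.mem hmax n).symm
  have e2 : ∀ n, finrank W.K (S.C (pw X n)) = S.a (pw X n) := fun n =>
    (a_eq_of_nondeg (nondeg_of_num (hN n))).symm
  simp only [e1] at t1
  simp only [e2] at t2
  have hnrm : ∀ n, nrm S X n ≠ 0 := fun n => (nrm_pos hbig n).ne'
  refine ⟨finrank W.K (LinearMap.range π), Submodule.finrank_le _, ?_, ?_⟩
  · have h1 := t1.div t2 one_ne_zero
    rw [div_one] at h1
    refine h1.congr fun n => ?_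
    rw [Pi.div_apply, div_div_div_cancel_right₀ (hnrm n)]
  · rintro ⟨m, hm⟩
    have h1 := rank_add_two_le hN hπ hm
    refine ⟨h1, fun ε hε => ?_⟩
    set β : ℝ := (finrank W.K (W.H Z) : ℝ) with hβ
    set u : ℝ := (finrank W.K (LinearMap.range π) : ℝ) with hu
    have hu2 : u + 2 ≤ β := by
      rw [hu, hβ]
      exact_mod_cast h1
    have hu0 : 0 ≤ u := Nat.cast_nonneg _
    have hβ1 : 0 < β - 1 := by linarith
    -- choose `δ` small
    set δ : ℝ := min (1 / 2) (ε / 2) with hδ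
    have hδ0 : 0 < δ := lt_min (by norm_num) (by positivity)
    have hδh : δ ≤ 1 / 2 := min_le_left _ _
    have hδε : δ ≤ ε / 2 := min_le_right _ _
    obtain ⟨n₁, hn₁⟩ := num_lower hbig hm hδ0
    obtain ⟨n₂, hn₂⟩ := num_lower hbig (num_succ hX hm) hδ0
    refine ⟨max (max n₁ n₂) 2, fun n hn => ?_⟩
    have hlow : (1 - δ) * nrm S X n ≤ finrank W.K (S.Num (Z.prod (pw X n))) := by
      by_cases hpar : n % 2 = m % 2
      · exact hn₁ n ((le_max_left _ _).trans ((le_max_left _ _).trans hn)) hpar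
      · exact hn₂ n ((le_max_right _ _).trans ((le_max_left _ _).trans hn)) (by omega)
    have hup := a_le_of_maxi hπ.mem hπ.idem hmax n ((le_max_right _ _).trans hn)
    rw [← hu] at hup
    have h8 : (finrank W.K (S.C (Z.prod (pw X n))) : ℝ) = S.a (Z.prod (pw X n)) +
        finrank W.K (S.Num (Z.prod (pw X n))) := by
      exact_mod_cast (S.a_add_num _).symm
    rw [h8]
    set a : ℝ := (S.a (Z.prod (pw X n)) : ℝ) with ha
    set ν : ℝ := (finrank W.K (S.Num (Z.prod (pw X n))) : ℝ) with hν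
    set x := nrm S X n with hx
    have hx0 : 0 ≤ x := nrm_nonneg n
    have ha0 : 0 ≤ a := Nat.cast_nonneg _
    have hν0 : 0 ≤ ν := Nat.cast_nonneg _
    -- `a ≤ u x`, `(1 - δ) x ≤ ν`
    have h9 : a * (1 - δ) ≤ u * ν := by
      have h10 : a * (1 - δ) ≤ u * x * (1 - δ) :=
        mul_le_mul_of_nonneg_right hup (by linarith)
      have h11 : u * ((1 - δ) * x) ≤ u * ν := mul_le_mul_of_nonneg_left hlow hu0
      linarith
    have h12 : u * ν ≤ (β - 2) * ν := mul_le_mul_of_nonneg_right (by linarith) hν0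
    -- the claim
    have h13 : a ≤ (β - 2) * ν + δ * a := by linarith
    have h14 : (1 - 1 / (β - 1) + ε) = (β - 2) / (β - 1) + ε := by
      field_simp
      ring
    rw [h14]
    have h15 : a * (β - 1) ≤ (β - 2) * (a + ν) + δ * a := by nlinarith
    have h16 : a ≤ ((β - 2) * (a + ν) + δ * a) / (β - 1) := by
      rw [le_div_iff₀ hβ1]
      exact h15
    have h17 : δ * a / (β - 1) ≤ ε * (a + ν) := by
      rw [div_le_iff₀ hβ1]
      have h18 : 1 ≤ β - 1 := by linarith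
      have h19 : δ * a ≤ ε * a := by nlinarith
      have h20 : ε * a ≤ ε * (a + ν) := by nlinarith
      have h21 : 0 ≤ ε * (a + ν) := by positivity
      nlinarith
    calc a ≤ ((β - 2) * (a + ν) + δ * a) / (β - 1) := h16
      _ = (β - 2) / (β - 1) * (a + ν) + δ * a / (β - 1) := by ring
      _ ≤ (β - 2) / (β - 1) * (a + ν) + ε * (a + ν) := by linarith
      _ = _ := by ring

lemma finrank_pw_mono (hX : (1 : W.H X) ≠ 0) (S : Sys W) {m n : ℕ} (h : m ≤ n) :
    finrank W.K (S.C (pw X m)) ≤ finrank W.K (S.C (pw X n)) := by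
  induction n, h using Nat.le_induction with
  | base => exact le_rfl
  | succ n _ ih =>
    refine ih.trans ?_
    apply S.finrank_C_le (pfst X n)
    intro x y hxy
    have h3 : xp W (x - y) (1 : W.H X) = 0 := by
      rw [xp, map_one, mul_one, map_sub]
      exact sub_eq_zero.2 hxy
    exact sub_eq_zero.1 (xp_eq_zero_right hX h3)

/-- **The zero law**, if there are numerically trivial classes on a power of `X`. -/
theorem zero_law (hX : (1 : W.H X) ≠ 0) (hZ : (1 : W.H Z) ≠ 0)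
    (h : ¬ ∀ n, S.Num (pw X n) = ⊥) (N : ℕ) : ∃ n₀ : ℕ, ∀ n ≥ n₀,
      N * S.a (Z.prod (pw X n)) ≤ finrank W.K (S.C (Z.prod (pw X n))) := by
  rcases S.num_or S (fun _ => le_rfl) X with h1 | h1
  · exact absurd h1 h
  set β := finrank W.K (W.H Z) with hβ
  set b := finrank W.K (W.H X) with hb
  have hb1 : 1 ≤ b := by
    have : Nontrivial (W.H X) := ⟨⟨1, 0, hX⟩⟩
    exact Module.finrank_pos
  obtain ⟨n₀, hn₀⟩ := h1 (N * (β * b ^ 2))
  refine ⟨n₀ + 4, fun n hn => ?_⟩
  obtain ⟨l, hl⟩ : ∃ l, l = (n - n % 2 - 2) / 2 := ⟨_, rfl⟩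
  have h2 := hn₀ (l + l + 1) (by omega)
  have h3 : S.al X l = S.a (pw X (l + l + 1)) := S.a_iso (pwAdd X l l)
  have h4 : S.a (Z.prod (pw X n)) ≤ β * (b ^ (n % 2 + 1) * S.al X l) := by
    have h5 := r_nrm S (Z := Z) (X := X) (e := 1) Sys.Op.id rfl n (by omega)
    rw [Sys.r_one, Sys.rank_one, nrm, ← hl] at h5
    exact_mod_cast h5
  have h6 : b ^ (n % 2 + 1) ≤ b ^ 2 := Nat.pow_le_pow_right hb1 (by omega)
  calc N * S.a (Z.prod (pw X n)) ≤ N * (β * (b ^ (n % 2 + 1) * S.al X l)) :=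
        Nat.mul_le_mul_left _ h4
    _ ≤ N * (β * (b ^ 2 * S.al X l)) :=
        Nat.mul_le_mul_left _ (Nat.mul_le_mul_left _ (Nat.mul_le_mul_right _ h6))
    _ = N * (β * b ^ 2) * S.a (pw X (l + l + 1)) := by rw [h3]; ring
    _ ≤ finrank W.K (S.C (pw X (l + l + 1))) := h2
    _ ≤ finrank W.K (S.C (pw X n)) := finrank_pw_mono hX S (by omega)
    _ ≤ _ := finrank_snd_le hZ S (pw X n)

end Pool.Agent.H61.ZX
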