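import Pool.Agent.H61.ZX.Unit

/-!
# Asymptotics of the parts cut out by idempotents
-/

open CategoryTheory AlgebraicGeometry

universe u v

namespace Pool.Agent.H61.ZX

open Module
open Pool.Agent.H914 Pool.Agent.H914.VarClass Pool.Agent.H914.VarClass.Obj
  Pool.Agent.H914.WeilCohomology Pool.Agent.Y133.Half

variable {k : Type u} [Field k] {𝒱 : VarClass k} {ops : CycleOps 𝒱}
  {W : WeilCohomology.{u, v} ops} {P Q Z X Y P₀ : 𝒱.Obj} (S : Sys W)

/-- The ratios of the ranks on the even powers of `X` tend to the square of the Betti number. -/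
structure Big (S : Sys W) (X : 𝒱.Obj) : Prop where
  lam : ∃ l ∈ S.C X, W.tr X l = 1
  pos : ∀ l, 0 < S.al X l
  hB : ∀ c : ℝ, 0 ≤ c → c < (finrank W.K (W.H X) : ℝ) ^ 2 →
    ∃ l₀, ∀ l ≥ l₀, c * S.al X l ≤ S.al X (l + 1)
  hX : 0 < finrank W.K (W.H X)

variable {S}

/-- Multiplication by a class of the system. -/
lemma mul_mem_Op {a : W.H X} (ha : a ∈ S.C X) : LinearMap.mulLeft W.K a ∈ S.Op X X := by
  have h : W.corr (W.push (diag X) a) = LinearMap.mulLeft W.K a := by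
    apply LinearMap.ext
    intro x
    rw [W.corr_diag]
    rfl
  rw [← h]
  exact Sys.Op.corr (S.push _ ha)

lemma push_mem_Op (f : X ⟶ Y) : W.push f ∈ S.Op X Y := by
  obtain ⟨u', hu', hadj⟩ := Sys.Op.exists_adj (S := S) (Sys.Op.map f)
  have h : u' = W.push f := by
    apply LinearMap.ext
    intro x
    apply W.tr_ext
    intro y
    have h1 : Adj W u' (W.map f).toLinearMap :=
      hadj.symm (Sys.Op.ev (Sys.Op.map (S := S) f)) (Sys.Op.ev hu')
    rw [h1, W.tr_push]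
    rfl
  rw [← h]
  exact hu'

/-- An operator which factors through a power of `X`, factors through the next one. -/
lemma fac_succ (hlam : ∃ l ∈ S.C X, W.tr X l = 1) {m : ℕ} {u : W.H (pw X m) →ₗ[W.K] W.H Z}
    (hu : u ∈ S.Op (pw X m) Z) {v : W.H Z →ₗ[W.K] W.H (pw X m)} (hv : v ∈ S.Op Z (pw X m)) :
    ∃ u' ∈ S.Op (pw X (m + 1)) Z, ∃ v' ∈ S.Op Z (pw X (m + 1)), u' ∘ₗ v' = u ∘ₗ v := by
  obtain ⟨l, hl, hl1⟩ := hlam
  have hf : (W.map (fst (pw X m) X)).toLinearMap ∈ S.Op (pw X m) ((pw X m).prod X) :=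
    Sys.Op.map _
  have hp : W.push (fst (pw X m) X) ∈ S.Op ((pw X m).prod X) (pw X m) := push_mem_Op _
  have key : ∀ x : W.H (pw X m), W.push (fst (pw X m) X)
      (W.map (snd (pw X m) X) l * W.map (fst (pw X m) X) x) = x := by
    intro x
    have h1 : W.map (snd (pw X m) X) l * W.map (fst (pw X m) X) x = xp W x l := by
      rw [PH.even_comm (PH.map _ (S.even hl))]
      rfl
    rw [h1]
    have h2 := push_fst (W := W) x l (S.even hl)
    rw [hl1, one_smul] at h2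
    exact h2
  refine ⟨(u ∘ₗ W.push (fst (pw X m) X) : W.H ((pw X m).prod X) →ₗ[W.K] W.H Z),
    Sys.Op.comp hu hp,
    ((LinearMap.mulLeft W.K (W.map (snd (pw X m) X) l)) ∘ₗ
      (W.map (fst (pw X m) X)).toLinearMap ∘ₗ v : W.H Z →ₗ[W.K] W.H ((pw X m).prod X)),
    Sys.Op.comp (mul_mem_Op (X := (pw X m).prod X) (S.map _ hl))
      (Sys.Op.comp hf hv), ?_⟩
  apply LinearMap.ext
  intro x
  exact congrArg u (key (v x))

lemma fac_add (hlam : ∃ l ∈ S.C X, W.tr X l = 1) {m : ℕ} {u : W.H (pw X m) →ₗ[W.K] W.H Z}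
    (hu : u ∈ S.Op (pw X m) Z) {v : W.H Z →ₗ[W.K] W.H (pw X m)} (hv : v ∈ S.Op Z (pw X m))
    (p : ℕ) : ∃ m', m' % 2 = p % 2 ∧
    ∃ u' ∈ S.Op (pw X m') Z, ∃ v' ∈ S.Op Z (pw X m'), u' ∘ₗ v' = u ∘ₗ v := by
  by_cases h : m % 2 = p % 2
  · exact ⟨m, h, u, hu, v, hv, rfl⟩
  · exact ⟨m + 1, by omega, fac_succ hlam hu hv⟩

variable (S)

/-- The normalising factor. -/
noncomputable def nrm (S : Sys W) (X : 𝒱.Obj) (n : ℕ) : ℝ :=
  (finrank W.K (W.H X) : ℝ) ^ (n % 2 + 1) * S.al X ((n - n % 2 - 2) / 2)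

lemma exists_split (n : ℕ) (hn : 2 ≤ n) :
    n = n % 2 + (((n - n % 2 - 2) / 2) + ((n - n % 2 - 2) / 2) + 1) + 1 := by omega

/-- The isomorphism `X^(m₀ + 1) × (Y × Y) ≅ X^(n + 1)`. -/
noncomputable def phi (X : 𝒱.Obj) (n : ℕ) (hn : 2 ≤ n) :
    (pw X (n % 2)).prod ((pw X ((n - n % 2 - 2) / 2)).prod (pw X ((n - n % 2 - 2) / 2))) ≅
      pw X n :=
  prodCongr (Iso.refl _) (pwAdd X _ _) ≪≫ pwAdd X _ _ ≪≫
    eqToIso (congrArg (pw X) (exists_split n hn).symm)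

lemma r_nrm {e : Module.End W.K (W.H Z)} (he : e ∈ S.Op Z Z) (hee : e ∘ₗ e = e) (n : ℕ)
    (hn : 2 ≤ n) :
    (S.r Z e (pw X n) : ℝ) ≤ finrank W.K (LinearMap.range e) * nrm S X n := by
  have h := r_upper S (P₀ := pw X (n % 2)) he hee (pw X ((n - n % 2 - 2) / 2))
  rw [S.r_iso e (phi X n hn), finrank_pw] at h
  have h2 : ((finrank W.K (LinearMap.range e) * finrank W.K (W.H X) ^ (n % 2 + 1) *
      S.a ((pw X ((n - n % 2 - 2) / 2)).prod (pw X ((n - n % 2 - 2) / 2))) : ℕ) : ℝ) =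
      finrank W.K (LinearMap.range e) * nrm S X n := by
    push_cast
    rw [nrm, mul_assoc]
    rfl
  rw [← h2]
  exact_mod_cast h

end Pool.Agent.H61.ZX
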