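import Pool.Agent.H61.ZX.Cat
import Pool.Graph.R_seed8.Y133.Half.Main2

/-!
# Parts of a product cut out by idempotents, and powers of a variety
-/

open CategoryTheory AlgebraicGeometry

universe u v

namespace Pool.Agent.H61.ZX

open Module
open Pool.Agent.H914 Pool.Agent.H914.VarClass Pool.Agent.H914.VarClass.Obj
  Pool.Agent.H914.WeilCohomology Pool.Agent.Y133.Half

variable {k : Type u} [Field k] {𝒱 : VarClass k} {ops : CycleOps 𝒱}
  {W : WeilCohomology.{u, v} ops} {P Q Z X Y P₀ : 𝒱.Obj} (S : Sys W)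

lemma rB {ι : Type} [Fintype ι] [DecidableEq ι] (X : ι → 𝒱.Obj) (i j : ι)
    {g : Module.End W.K (W.H (X i))} (hg : Ev W g) :
    rk (A := (S.cat X).S i j) (B := (S.cat X).S j i) ((S.cat X).B i j g LinearMap.id) =
      S.r (X i) g (X j) := by
  rw [S.cat_B]
  exact S.rk_BO_r hg

/-- The part cut out by an idempotent of `P` which factors through the idempotent `e` of `Z`. -/
lemma r_le_of_fac {e : Module.End W.K (W.H Z)} (he : e ∈ S.Op Z Z) {u : W.H P →ₗ[W.K] W.H Z}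
    (hu : u ∈ S.Op P Z) {v : W.H Z →ₗ[W.K] W.H P} (hv : v ∈ S.Op Z P) (Y : 𝒱.Obj) :
    S.r P (v ∘ₗ e ∘ₗ u) Y ≤ S.r Z e Y := by
  have hh : v ∘ₗ e ∘ₗ u ∈ S.Op P P := Sys.Op.comp hv (Sys.Op.comp he hu)
  let X : Fin 3 → 𝒱.Obj := ![Z, P, Y]
  have h1 := rB S X 0 2 (g := e) (Sys.Op.ev he)
  have h2 := rB S X 1 2 (g := v ∘ₗ e ∘ₗ u) (Sys.Op.ev hh)
  have h3 := B_fac_le (S.cat X) (i := 0) (j := 2) (l := 1) (e := e) (u := u) hu (v := v) hv
  rw [h1] at h3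
  refine le_trans (le_of_eq h2.symm) h3

lemma r_mono {e f : Module.End W.K (W.H Z)} (he : e ∈ S.Op Z Z) (hf : f ∈ S.Op Z Z)
    (hef : e ∘ₗ f = e) (Y : 𝒱.Obj) : S.r Z e Y ≤ S.r Z f Y := by
  let X : Fin 2 → 𝒱.Obj := ![Z, Y]
  have h1 := rB S X 0 1 (g := e) (Sys.Op.ev he)
  have h2 := rB S X 0 1 (g := f) (Sys.Op.ev hf)
  have h3 := B_mono (S.cat X) (i := 0) (j := 1) (e := e) (f := f) he hef
  exact (le_of_eq h1.symm).trans (h3.trans (le_of_eq h2))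

lemma r_add_orth {e f : Module.End W.K (W.H Z)} (he : e ∈ S.Op Z Z) (hf : f ∈ S.Op Z Z)
    (hee : e ∘ₗ e = e) (hff : f ∘ₗ f = f) (hef : e ∘ₗ f = 0) (hfe : f ∘ₗ e = 0) (Y : 𝒱.Obj) :
    S.r Z e Y + S.r Z f Y ≤ S.r Z (e + f) Y := by
  let X : Fin 2 → 𝒱.Obj := ![Z, Y]
  have h1 := rB S X 0 1 (g := e) (Sys.Op.ev he)
  have h2 := rB S X 0 1 (g := f) (Sys.Op.ev hf)
  have h4 := rB S X 0 1 (g := e + f) (Sys.Op.ev (Submodule.add_mem _ he hf))
  have h3 := B_add_orth (S.cat X) (i := 0) (j := 1) (e := e) (f := f) he hf hee hff hef hfe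
  have h5 := h3.trans (le_of_eq h4)
  exact (le_of_eq (congrArg₂ (· + ·) h1.symm h2.symm)).trans h5

/-- The supertrace of an operator `P → Z → P`. -/
lemma exists_new' {π : Module.End W.K (W.H Z)} (hπ : π ∈ S.Op Z Z) (hππ : π ∘ₗ π = π)
    {s : W.H Y →ₗ[W.K] W.H Z} (hs : s ∈ S.Op Y Z) {t : W.H Z →ₗ[W.K] W.H Y} (ht : t ∈ S.Op Z Y)
    (h : LinearMap.trace W.K (W.H Z) (par (W.isInternal Z) ∘ₗ (1 - π) ∘ₗ s ∘ₗ t) ≠ 0) :
    ∃ f ∈ S.Op Z Z, f ∘ₗ f = f ∧ f ≠ 0 ∧ π ∘ₗ f = 0 ∧ f ∘ₗ π = 0 ∧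
      ∃ v ∈ S.Op Z Y, f = ((1 - π) ∘ₗ s) ∘ₗ v := by
  let X : Fin 2 → 𝒱.Obj := ![Z, Y]
  exact exists_new (S.cat X) (i := 0) (j := 1) (π := π) hπ hππ (s := s) hs (t := t) ht h

/-- The part cut out by an idempotent. -/
lemma r_lower' {g : Module.End W.K (W.H P)} (hg : g ∈ S.Op P P)
    (hgg : g ∘ₗ g = g) (Y : 𝒱.Obj) :
    S.a ((P.prod P₀).prod (Y.prod Y)) +
        finrank W.K (LinearMap.range g) * finrank W.K (W.H P₀) * S.a (Y.prod Y) ≤
      S.r P g (P₀.prod (Y.prod Y)) +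
        finrank W.K (W.H P) * finrank W.K (W.H P₀) * S.a (Y.prod Y) := by
  set G : Module.End W.K (W.H (P.prod P₀)) := extOp W g 1 with hG
  have hGm : G ∈ S.Op (P.prod P₀) (P.prod P₀) := Sys.Op.ext hg Sys.Op.id
  have h11 : (1 : Module.End W.K (W.H P₀)) ∘ₗ 1 = 1 := rfl
  have hGG : G * G = G := by
    rw [hG, extOp_mul, mul_one]
    change extOp W (g ∘ₗ g) 1 = _
    rw [hgg]
  have hG' : (1 - G) ∘ₗ (1 - G) = 1 - G := by
    change (1 - G) * (1 - G) = 1 - G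
    rw [mul_sub, sub_mul, sub_mul, hGG]
    simp
  have h1 := S.r_add_le (Z := Y.prod Y) G (1 - G)
  rw [add_sub_cancel, Sys.r_one] at h1
  have h2 := S.r_le_rank (g := 1 - G) (Submodule.sub_mem _ Sys.Op.id hGm) hG' Y
  have h3 : S.r (P.prod P₀) G (Y.prod Y) = S.r P g (P₀.prod (Y.prod Y)) := S.r_assoc g
  have h4 : finrank W.K (LinearMap.range G) = finrank W.K (LinearMap.range g) *
      finrank W.K (W.H P₀) := by
    rw [hG, finrank_extOp hgg h11, Sys.rank_one]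
  have h5 : finrank W.K (LinearMap.range (1 - G)) + finrank W.K (LinearMap.range G) =
      finrank W.K (W.H P) * finrank W.K (W.H P₀) := by
    have := (Sys.finrank_compl (W := W) (P := P.prod P₀) (g := G) hGG).2
    rw [this, Y133.Half.finrank_prod]
  rw [h3] at h1
  rw [← h5, h4]
  have h6 : (finrank W.K (LinearMap.range (1 - G)) +
      finrank W.K (LinearMap.range g) * finrank W.K (W.H P₀)) * S.a (Y.prod Y) =
      finrank W.K (LinearMap.range (1 - G)) * S.a (Y.prod Y) +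
      finrank W.K (LinearMap.range g) * finrank W.K (W.H P₀) * S.a (Y.prod Y) := by ring
  rw [h6]
  omega

/-- The rank of the part cut out by an idempotent is bounded by the rank of the idempotent. -/
lemma r_upper {g : Module.End W.K (W.H P)} (hg : g ∈ S.Op P P)
    (hgg : g ∘ₗ g = g) (Y : 𝒱.Obj) :
    S.r P g (P₀.prod (Y.prod Y)) ≤
      finrank W.K (LinearMap.range g) * finrank W.K (W.H P₀) * S.a (Y.prod Y) := by
  set G : Module.End W.K (W.H (P.prod P₀)) := extOp W g 1 with hG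
  have hGm : G ∈ S.Op (P.prod P₀) (P.prod P₀) := Sys.Op.ext hg Sys.Op.id
  have h11 : (1 : Module.End W.K (W.H P₀)) ∘ₗ 1 = 1 := rfl
  have hGG : G ∘ₗ G = G := by
    change G * G = G
    rw [hG, extOp_mul, mul_one]
    change extOp W (g ∘ₗ g) 1 = _
    rw [hgg]
  have h2 := S.r_le_rank (g := G) hGm hGG Y
  have h3 : S.r (P.prod P₀) G (Y.prod Y) = S.r P g (P₀.prod (Y.prod Y)) := S.r_assoc g
  have h4 : finrank W.K (LinearMap.range G) = finrank W.K (LinearMap.range g) *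
      finrank W.K (W.H P₀) := by
    rw [hG, finrank_extOp hgg h11, Sys.rank_one]
  rw [h3, h4] at h2
  exact h2

end Pool.Agent.H61.ZX
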