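import Pool.Graph.R_seed8.Y133.Half.Key

/-!
# Idempotents of a category of operators
-/

namespace Pool.Agent.H61.ZX

open Module Polynomial Pool.Agent.Y133.Half

variable {ι K : Type*} [Fintype ι] [DecidableEq ι] [Field K] {V : ι → Type*}
  [∀ i, AddCommGroup (V i)] [∀ i, Module K (V i)] [∀ i, FiniteDimensional K (V i)]
  (C : Cat K V)

omit [Fintype ι] [DecidableEq ι] in
lemma tC_cyc {i j : ι} {u : V j →ₗ[K] V i} (hu : u ∈ C.S i j) (w : V i →ₗ[K] V j) :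
    LinearMap.trace K (V i) (C.p i ∘ₗ (u ∘ₗ w)) = LinearMap.trace K (V j) (C.p j ∘ₗ (w ∘ₗ u)) := by
  rw [← LinearMap.comp_assoc, C.comm hu, LinearMap.comp_assoc,
    LinearMap.trace_comp_comm', LinearMap.comp_assoc]

lemma rk_le_of {A B A' B' : Type*} [AddCommGroup A] [Module K A] [AddCommGroup B]
    [Module K B] [AddCommGroup A'] [Module K A'] [AddCommGroup B'] [Module K B']
    [FiniteDimensional K A] [FiniteDimensional K B] [FiniteDimensional K A']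
    [FiniteDimensional K B'] (β : A →ₗ[K] B →ₗ[K] K) (β' : A' →ₗ[K] B' →ₗ[K] K)
    (f : A' →ₗ[K] A) (g : B' →ₗ[K] B) (h : ∀ x y, β' x y = β (f x) (g y)) : rk β' ≤ rk β := by
  have h1 : β' = β.compl₁₂ f g := by
    apply LinearMap.ext
    intro x
    apply LinearMap.ext
    intro y
    rw [LinearMap.compl₁₂_apply, h]
  rw [h1]
  exact rk_comp_le β f g

/-- composition on the left -/
def lcC {i j l : ι} {u : V l →ₗ[K] V i} (hu : u ∈ C.S i l) : C.S l j →ₗ[K] C.S i j where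
  toFun x := ⟨u ∘ₗ (x : V j →ₗ[K] V l), C.mul hu x.2⟩
  map_add' _ _ := Subtype.ext (LinearMap.comp_add _ _ _)
  map_smul' _ _ := Subtype.ext (LinearMap.comp_smul _ _ _)

/-- composition on the right -/
def rcC {i j l : ι} {v : V i →ₗ[K] V l} (hv : v ∈ C.S l i) : C.S j l →ₗ[K] C.S j i where
  toFun x := ⟨(x : V l →ₗ[K] V j) ∘ₗ v, C.mul x.2 hv⟩
  map_add' _ _ := Subtype.ext (LinearMap.add_comp _ _ _)
  map_smul' _ _ := Subtype.ext (LinearMap.smul_comp _ _ _)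

lemma B_fac_le {i j l : ι} {e : V i →ₗ[K] V i} {u : V l →ₗ[K] V i} (hu : u ∈ C.S i l)
    {v : V i →ₗ[K] V l} (hv : v ∈ C.S l i) :
    rk (C.B l j (v ∘ₗ e ∘ₗ u) LinearMap.id) ≤ rk (C.B i j e LinearMap.id) := by
  refine rk_le_of (C.B i j e LinearMap.id) (C.B l j (v ∘ₗ e ∘ₗ u) LinearMap.id)
    (lcC C hu) (rcC C hv) fun x y => ?_
  rw [C.B_apply, C.B_apply]
  exact tC_cyc C hv (e ∘ₗ u ∘ₗ (x : V j →ₗ[K] V l) ∘ₗ (y : V l →ₗ[K] V j))

lemma B_cyc {i j : ι} {e f : V i →ₗ[K] V i} (hf : f ∈ C.S i i)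
    (x : C.S i j) (y : C.S j i) :
    C.B i j e LinearMap.id x (rcC C hf y) = C.B i j (f ∘ₗ e) LinearMap.id x y := by
  rw [C.B_apply, C.B_apply]
  exact (tC_cyc C hf (e ∘ₗ (x : V j →ₗ[K] V i) ∘ₗ (y : V i →ₗ[K] V j))).symm

lemma B_mono {i j : ι} {e f : V i →ₗ[K] V i} (he : e ∈ C.S i i) (hef : e ∘ₗ f = e) :
    rk (C.B i j e LinearMap.id) ≤ rk (C.B i j f LinearMap.id) := by
  refine rk_le_of (C.B i j f LinearMap.id) (C.B i j e LinearMap.id)
    LinearMap.id (rcC C he) fun x y => ?_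
  rw [B_cyc, hef]
  rfl

/-- The rank of the form of the sum of two orthogonal idempotents. -/
lemma B_add_orth {i j : ι} {e f : V i →ₗ[K] V i} (he : e ∈ C.S i i) (hf : f ∈ C.S i i)
    (hee : e ∘ₗ e = e) (hff : f ∘ₗ f = f) (hef : e ∘ₗ f = 0) (hfe : f ∘ₗ e = 0) :
    rk (C.B i j e LinearMap.id) + rk (C.B i j f LinearMap.id) ≤
      rk (C.B i j (e + f) LinearMap.id) := by
  have h1 : LinearMap.range (C.B i j e LinearMap.id) ≤
      LinearMap.range (C.B i j (e + f) LinearMap.id) := by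
    rintro _ ⟨x, rfl⟩
    refine ⟨lcC C he x, ?_⟩
    apply LinearMap.ext
    intro y
    rw [C.B_apply, C.B_apply]
    change LinearMap.trace K (V i) (C.p i ∘ₗ (e + f) ∘ₗ (e ∘ₗ (x : V j →ₗ[K] V i)) ∘ₗ
      LinearMap.id ∘ₗ (y : V i →ₗ[K] V j)) = _
    have h : (e + f) ∘ₗ (e ∘ₗ (x : V j →ₗ[K] V i)) ∘ₗ LinearMap.id ∘ₗ (y : V i →ₗ[K] V j) =
        e ∘ₗ (x : V j →ₗ[K] V i) ∘ₗ LinearMap.id ∘ₗ (y : V i →ₗ[K] V j) := by
      have hh : ∀ w : V i →ₗ[K] V i, (e + f) ∘ₗ (e ∘ₗ w) = e ∘ₗ w := fun w => by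
        rw [← LinearMap.comp_assoc, LinearMap.add_comp, hee, hfe, add_zero]
      rw [LinearMap.comp_assoc _ _ e, hh]
    rw [h]
  have h2 : LinearMap.range (C.B i j f LinearMap.id) ≤
      LinearMap.range (C.B i j (e + f) LinearMap.id) := by
    rintro _ ⟨x, rfl⟩
    refine ⟨lcC C hf x, ?_⟩
    apply LinearMap.ext
    intro y
    rw [C.B_apply, C.B_apply]
    change LinearMap.trace K (V i) (C.p i ∘ₗ (e + f) ∘ₗ (f ∘ₗ (x : V j →ₗ[K] V i)) ∘ₗ
      LinearMap.id ∘ₗ (y : V i →ₗ[K] V j)) = _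
    have h : (e + f) ∘ₗ (f ∘ₗ (x : V j →ₗ[K] V i)) ∘ₗ LinearMap.id ∘ₗ (y : V i →ₗ[K] V j) =
        f ∘ₗ (x : V j →ₗ[K] V i) ∘ₗ LinearMap.id ∘ₗ (y : V i →ₗ[K] V j) := by
      have hh : ∀ w : V i →ₗ[K] V i, (e + f) ∘ₗ (f ∘ₗ w) = f ∘ₗ w := fun w => by
        rw [← LinearMap.comp_assoc, LinearMap.add_comp, hff, hef, zero_add]
      rw [LinearMap.comp_assoc _ _ f, hh]
    rw [h]
  have h3 : LinearMap.range (C.B i j e LinearMap.id) ⊓ LinearMap.range (C.B i j f LinearMap.id)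
      = ⊥ := by
    rw [eq_bot_iff]
    rintro φ ⟨⟨x, hx⟩, ⟨x', hx'⟩⟩
    rw [Submodule.mem_bot]
    apply LinearMap.ext
    intro y
    have e1 : C.B i j e LinearMap.id x (rcC C he y) = C.B i j e LinearMap.id x y := by
      rw [B_cyc, hee]
    have e2 : C.B i j f LinearMap.id x' (rcC C he y) = 0 := by
      rw [B_cyc, hef, C.B_apply, LinearMap.zero_comp, LinearMap.comp_zero, map_zero]
    rw [hx'] at e2
    rw [hx, e2] at e1
    rw [← e1]
    rfl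
  have h4 := Submodule.finrank_sup_add_finrank_inf_eq (LinearMap.range (C.B i j e LinearMap.id))
    (LinearMap.range (C.B i j f LinearMap.id))
  rw [h3, finrank_bot, add_zero] at h4
  change finrank K _ + finrank K _ ≤ finrank K _
  rw [← h4]
  exact Submodule.finrank_mono (sup_le h1 h2)

/-- If an idempotent `π` does not absorb `s` up to numerically trivial operators, there is an
idempotent orthogonal to `π` which factors through `s`. -/
lemma exists_new {i j : ι} {π : V i →ₗ[K] V i} (hπ : π ∈ C.S i i) (hππ : π ∘ₗ π = π)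
    {s : V j →ₗ[K] V i} (hs : s ∈ C.S i j) {t : V i →ₗ[K] V j} (ht : t ∈ C.S j i)
    (h : LinearMap.trace K (V i) (C.p i ∘ₗ (1 - π) ∘ₗ s ∘ₗ t) ≠ 0) :
    ∃ f ∈ C.S i i, f ∘ₗ f = f ∧ f ≠ 0 ∧ π ∘ₗ f = 0 ∧ f ∘ₗ π = 0 ∧
      ∃ v ∈ C.S j i, f = ((1 - π) ∘ₗ s) ∘ₗ v := by
  have h1π : (1 - π) ∈ C.S i i := Submodule.sub_mem _ (C.one i) hπ
  have e1 : (1 - π) ∘ₗ (1 - π) = 1 - π := by
    change (1 - π) * (1 - π) = 1 - π
    have : π * π = π := hππ
    rw [mul_sub, sub_mul, sub_mul, this]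
    simp
  have e2 : π ∘ₗ (1 - π) = 0 := by
    change π * (1 - π) = 0
    have : π * π = π := hππ
    rw [mul_sub, this, mul_one, sub_self]
  have e3 : (1 - π) ∘ₗ π = 0 := by
    change (1 - π) * π = 0
    have : π * π = π := hππ
    rw [sub_mul, this, one_mul, sub_self]
  set x : V i →ₗ[K] V i := ((1 - π) ∘ₗ s) ∘ₗ (t ∘ₗ (1 - π)) with hx
  have hxS : x ∈ C.S i i := C.mul (C.mul h1π hs) (C.mul ht h1π)
  have hnil : ¬ IsNilpotent x := by
    intro hn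
    apply h
    have h2 := C.tr_nil hxS hn
    have h3 : LinearMap.trace K (V i) (C.p i ∘ₗ x) =
        LinearMap.trace K (V i) (C.p i ∘ₗ (1 - π) ∘ₗ s ∘ₗ t) := by
      have h4 := tC_cyc C h1π (((1 - π) ∘ₗ s) ∘ₗ t)
      have h5 : (1 - π) ∘ₗ (((1 - π) ∘ₗ s) ∘ₗ t) = (1 - π) ∘ₗ s ∘ₗ t := by
        rw [LinearMap.comp_assoc, ← LinearMap.comp_assoc, e1]
      rw [h5] at h4
      rw [h4]
      rfl
    rw [← h3]
    exact h2
  obtain ⟨q, hq1, hq2⟩ := exists_fit (K := K) (V := V i) x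
  have hcomm : aeval x q * x = x * aeval x q := by
    have : Commute (aeval x q) (aeval x (X : K[X])) := by
      rw [Commute, SemiconjBy, ← map_mul, ← map_mul, mul_comm]
    rw [aeval_X] at this
    exact this
  have hq : aeval x q ∈ C.S i i := C.aeval_mem hxS q
  refine ⟨aeval x q * x, C.mul hq hxS, hq1, fun h0 => hnil (hq2 h0), ?_, ?_,
    (t ∘ₗ (1 - π)) ∘ₗ aeval x q, C.mul (C.mul ht h1π) hq, ?_⟩
  · rw [hcomm]
    change π ∘ₗ (((1 - π) ∘ₗ s) ∘ₗ (t ∘ₗ (1 - π))) ∘ₗ aeval x q = 0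
    have hh : ∀ w : V j →ₗ[K] V i, π ∘ₗ ((1 - π) ∘ₗ w) = 0 := fun w => by
      rw [← LinearMap.comp_assoc, e2, LinearMap.zero_comp]
    rw [← LinearMap.comp_assoc, ← LinearMap.comp_assoc, hh, LinearMap.zero_comp,
      LinearMap.zero_comp]
  · change (aeval x q ∘ₗ (((1 - π) ∘ₗ s) ∘ₗ (t ∘ₗ (1 - π)))) ∘ₗ π = 0
    rw [LinearMap.comp_assoc, LinearMap.comp_assoc, LinearMap.comp_assoc π (1 - π) t, e3,
      LinearMap.comp_zero, LinearMap.comp_zero, LinearMap.comp_zero]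
  · rw [hcomm]
    rfl

/-- The rank of the sum of two orthogonal idempotents. -/
lemma rank_add_orth [CharZero K] {U : Type*} [AddCommGroup U] [Module K U] [FiniteDimensional K U]
    {e f : U →ₗ[K] U} (hee : e ∘ₗ e = e) (hff : f ∘ₗ f = f) (hef : e ∘ₗ f = 0)
    (hfe : f ∘ₗ e = 0) : (e + f) ∘ₗ (e + f) = e + f ∧
      finrank K (LinearMap.range (e + f)) =
        finrank K (LinearMap.range e) + finrank K (LinearMap.range f) := by
  have h1 : (e + f) ∘ₗ (e + f) = e + f := by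
    rw [LinearMap.comp_add, LinearMap.add_comp, LinearMap.add_comp, hee, hff, hef, hfe]
    simp
  refine ⟨h1, ?_⟩
  have e1 := trace_idem (K := K) (f := e + f) h1
  have e2 := trace_idem (K := K) (f := e) hee
  have e3 := trace_idem (K := K) (f := f) hff
  rw [map_add, e2, e3] at e1
  exact_mod_cast e1.symm

end Pool.Agent.H61.ZX
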