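import Pool.Agent.H61.ZX.Max
import Pool.Graph.R_seed8.H914R2.GBasic

/-!
# Consequences of maximality
-/

open CategoryTheory AlgebraicGeometry

universe u v

namespace Pool.Agent.H61.ZX

open Module
open Pool.Agent.H914 Pool.Agent.H914.VarClass Pool.Agent.H914.VarClass.Obj
  Pool.Agent.H914.WeilCohomology Pool.Agent.Y133.Half

variable {k : Type u} [Field k] {𝒱 : VarClass k} {ops : CycleOps 𝒱}
  {W : WeilCohomology.{u, v} ops} {P Q Z X Y P₀ : 𝒱.Obj} {S T : Sys W}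

/-- The part cut out by `1 - π` vanishes. -/
lemma r_compl_eq_zero {π : Module.End W.K (W.H Z)} (hπ : π ∈ S.Op Z Z) (h : Maxi S S X Z π)
    (n : ℕ) : S.r Z (1 - π) (pw X n) = 0 := by
  have h1 : (1 - π) ∈ S.Op Z Z := Submodule.sub_mem _ Sys.Op.id hπ
  rw [← S.rk_BO_r (Sys.Op.ev h1)]
  have h2 : S.BO Z (pw X n) (1 - π) LinearMap.id = 0 := by
    apply LinearMap.ext
    intro s
    apply LinearMap.ext
    intro t
    rw [Sys.BO_apply]
    exact h n s s.2 t t.2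
  rw [h2, rk]
  simp

lemma a_le_of_maxi {π : Module.End W.K (W.H Z)} (hπ : π ∈ S.Op Z Z) (hππ : π ∘ₗ π = π)
    (h : Maxi S S X Z π) (n : ℕ) (hn : 2 ≤ n) :
    (S.a (Z.prod (pw X n)) : ℝ) ≤ finrank W.K (LinearMap.range π) * nrm S X n := by
  have h1 := S.r_add_le (P := Z) (Z := pw X n) π (1 - π)
  rw [add_sub_cancel, Sys.r_one, r_compl_eq_zero hπ h, add_zero] at h1
  have h2 : (S.a (Z.prod (pw X n)) : ℝ) ≤ S.r Z π (pw X n) := by exact_mod_cast h1
  exact h2.trans (r_nrm S hπ hππ n hn)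

/-- If the pairing on the classes of `T` is perfect, the operators of `S` are fixed by a maximal
idempotent. -/
lemma comp_eq_of_maxi (hT : ∀ n, Sys.Nondeg T ((pw X n).prod Z)) (hST : ∀ X, S.C X ≤ T.C X)
    {π : Module.End W.K (W.H Z)} (hπ : π ∈ T.Op Z Z) (h : Maxi S T X Z π) {n : ℕ}
    {s : W.H (pw X n) →ₗ[W.K] W.H Z} (hs : s ∈ S.Op (pw X n) Z) : π ∘ₗ s = s := by
  have h1 : (1 - π) ∈ T.Op Z Z := Submodule.sub_mem _ Sys.Op.id hπ
  have h2 : (1 - π) ∘ₗ s ∈ T.Op (pw X n) Z := Sys.Op.comp h1 (Op_mono hST _ _ hs)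
  obtain ⟨c, hc, hcs⟩ := Sys.mem_Op.1 h2
  have h3 : c = 0 := by
    refine hT n c hc fun y hy => ?_
    have h4 : W.map (swap Z (pw X n)) y ∈ T.C (Z.prod (pw X n)) := T.map _ hy
    have h5 := h n s hs (W.corr (W.map (swap Z (pw X n)) y)) (Sys.Op.corr h4)
    have h6 := trace_corr_corr (W := W) c (W.map (swap Z (pw X n)) y)
    rw [hcs, swap_swap] at h6
    rw [← h6]
    exact h5
  rw [h3, corr_zero] at hcs
  have h7 : (1 - π) ∘ₗ s = s - π ∘ₗ s := by rw [LinearMap.sub_comp]; rfl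
  rw [h7] at hcs
  exact (sub_eq_zero.1 hcs.symm).symm

lemma corr_one_ext {g : Module.End W.K (W.H Z)} (hg : Ev W g) (c : W.H (Q.prod Z)) :
    W.corr (extOp W 1 g c) = g ∘ₗ W.corr c :=
  corr_extOp Adj.one Ev.id hg c

lemma ext_swap {g : Module.End W.K (W.H Z)} (hg : Ev W g) (c : W.H (Z.prod Q)) :
    W.map (swap Q Z) (extOp W g 1 c) = extOp W 1 g (W.map (swap Q Z) c) :=
  (Sys.swap_op hg c).symm

lemma Cop {n m : ℕ} (heq : ∀ n, S.C (pw X n) = T.C (pw X n)) {t : W.H (pw X n) →ₗ[W.K] W.H (pw X m)}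
    (ht : t ∈ T.Op (pw X n) (pw X m)) : t ∈ S.Op (pw X n) (pw X m) := by
  obtain ⟨c, hc, rfl⟩ := Sys.mem_Op.1 ht
  refine Sys.Op.corr ?_
  have h1 : W.map (pwAdd X n m).inv c ∈ S.C (pw X (n + m + 1)) := by
    rw [heq]
    exact T.map _ hc
  have h2 := S.map (pwAdd X n m).hom h1
  rw [← W.map_comp, Iso.hom_inv_id, W.map_id] at h2
  exact h2

lemma idl_comp_mem (heq : ∀ n, S.C (pw X n) = T.C (pw X n)) {x : Module.End W.K (W.H Z)}
    (hx : x ∈ idl S T X Z) {n : ℕ} {t : W.H (pw X n) →ₗ[W.K] W.H Z} (ht : t ∈ T.Op (pw X n) Z) :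
    x ∘ₗ t ∈ S.Op (pw X n) Z := by
  refine Submodule.span_induction (p := fun x _ => x ∘ₗ t ∈ S.Op (pw X n) Z) ?_ ?_ ?_ ?_ hx
  · rintro _ ⟨m, s, hs, v, hv, rfl⟩
    rw [LinearMap.comp_assoc]
    exact Sys.Op.comp hs (Cop heq (Sys.Op.comp hv ht))
  · rw [LinearMap.zero_comp]; exact Submodule.zero_mem _
  · intro a b _ _ ha hb
    rw [LinearMap.add_comp]; exact Submodule.add_mem _ ha hb
  · intro c a _ ha
    rw [LinearMap.smul_comp]; exact Submodule.smul_mem _ _ ha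

/-- The form of an idempotent has the rank of its image. -/
lemma r_eq_finrank {g : Module.End W.K (W.H P)}
    (hT : Sys.Nondeg T (P.prod Q)) (M : Submodule W.K (W.H (P.prod Q)))
    (h1 : M ≤ T.C (P.prod Q)) (h2 : ∀ c ∈ M, extOp W g 1 c = c)
    (h3 : ∀ c ∈ T.C (P.prod Q), extOp W g 1 c ∈ M) : T.r P g Q = finrank W.K M := by
  have hinj : Function.Injective (T.F (P.prod Q) 1) := by
    rw [← LinearMap.ker_eq_bot, LinearMap.ker_eq_bot']
    intro c hc
    apply Subtype.ext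
    refine hT c c.2 fun y hy => ?_
    exact congrArg (fun f : T.C (P.prod Q) →ₗ[W.K] W.K => f ⟨y, hy⟩) hc
  let L : T.C (P.prod Q) →ₗ[W.K] T.C (P.prod Q) :=
    (extOp W g 1).restrict fun c hc => h1 (h3 c hc)
  have hL : T.F (P.prod Q) (extOp W g 1) = T.F (P.prod Q) 1 ∘ₗ L := by
    apply LinearMap.ext
    intro c
    apply LinearMap.ext
    intro d
    rfl
  rw [Sys.r, rk, hL, LinearMap.range_comp]
  rw [(Submodule.equivMapOfInjective _ hinj _).symm.finrank_eq]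
  have h4 : (LinearMap.range L).map (T.C (P.prod Q)).subtype = M := by
    ext x
    constructor
    · rintro ⟨_, ⟨c, rfl⟩, rfl⟩
      exact h3 c c.2
    · intro hx
      exact ⟨L ⟨x, h1 hx⟩, ⟨_, rfl⟩, h2 x hx⟩
  rw [← h4]
  exact (Submodule.equivMapOfInjective _ (Submodule.subtype_injective _) _).finrank_eq

/-- **The classes of `S`, if `S` and `T` agree on the powers of `X`.** -/
lemma finrank_C_eq (hST : ∀ X, S.C X ≤ T.C X) (heq : ∀ n, S.C (pw X n) = T.C (pw X n))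
    (hT : ∀ n, Sys.Nondeg T ((pw X n).prod Z)) (hT' : ∀ n, Sys.Nondeg T (Z.prod (pw X n)))
    {π : Module.End W.K (W.H Z)} (hπ : Good S T X Z π) (h : Maxi S T X Z π) (n : ℕ) :
    T.r Z π (pw X n) = finrank W.K (S.C (Z.prod (pw X n))) := by
  refine r_eq_finrank (hT' n) (S.C (Z.prod (pw X n))) (hST _) ?_ ?_
  · intro c hc
    have h1 : W.map (swap (pw X n) Z) c ∈ S.C ((pw X n).prod Z) := S.map _ hc
    have h2 := comp_eq_of_maxi hT hST hπ.mem h (Sys.Op.corr h1)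
    have h3 : W.corr (W.map (swap (pw X n) Z) (extOp W π 1 c) - W.map (swap (pw X n) Z) c) = 0 := by
      rw [ext_swap (Sys.Op.ev hπ.mem), sub_eq_add_neg, corr_add, corr_one_ext (Sys.Op.ev hπ.mem),
        h2]
      have h4 := W.corr_add (W.map (swap (pw X n) Z) c) (-(W.map (swap (pw X n) Z) c))
      rw [add_neg_cancel, corr_zero] at h4
      exact h4.symm
    have h4 := corr_inj h3
    have h5 := congrArg (W.map (swap Z (pw X n))) (sub_eq_zero.1 h4)
    rwa [swap_swap, swap_swap] at h5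
  · intro c hc
    have h1 : W.map (swap (pw X n) Z) c ∈ T.C ((pw X n).prod Z) := T.map _ hc
    have h2 := idl_comp_mem heq hπ.gen (Sys.Op.corr h1)
    rw [← corr_one_ext (Sys.Op.ev hπ.mem), ← ext_swap (Sys.Op.ev hπ.mem)] at h2
    obtain ⟨d, hd, hd'⟩ := Sys.mem_Op.1 h2
    have h3 : W.corr (d - W.map (swap (pw X n) Z) (extOp W π 1 c)) = 0 := by
      have h4 := W.corr_add (d - W.map (swap (pw X n) Z) (extOp W π 1 c))
        (W.map (swap (pw X n) Z) (extOp W π 1 c))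
      rw [sub_add_cancel, hd'] at h4
      exact right_eq_add.1 h4
    have h4 := sub_eq_zero.1 (corr_inj h3)
    have h5 := S.map (swap Z (pw X n)) hd
    rw [h4, swap_swap] at h5
    exact h5

end Pool.Agent.H61.ZX
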