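import Pool.Agent.H61.ZX.Asym

/-!
# Lower bounds for the parts cut out by idempotents
-/

open CategoryTheory AlgebraicGeometry

universe u v

namespace Pool.Agent.H61.ZX

open Module
open Pool.Agent.H914 Pool.Agent.H914.VarClass Pool.Agent.H914.VarClass.Obj
  Pool.Agent.H914.WeilCohomology Pool.Agent.Y133.Half

variable {k : Type u} [Field k] {𝒱 : VarClass k} {ops : CycleOps 𝒱}
  {W : WeilCohomology.{u, v} ops} {P Q Z X Y P₀ : 𝒱.Obj} {S : Sys W}

/-- The ranks of the parts cut out by `e` on the products with the powers of `X` are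
asymptotically as large as possible. -/
def Low (S : Sys W) (X Z : 𝒱.Obj) (e : Module.End W.K (W.H Z)) : Prop :=
  ∀ δ : ℝ, 0 < δ → ∃ n₀ : ℕ, ∀ n ≥ n₀,
    ((finrank W.K (LinearMap.range e) : ℝ) - δ) * nrm S X n ≤ S.r Z e (pw X n)

lemma nrm_nonneg (n : ℕ) : 0 ≤ nrm S X n := by
  rw [nrm]; positivity

lemma low_zero : Low S X Z 0 := by
  intro δ hδ
  refine ⟨0, fun n _ => ?_⟩
  have h : finrank W.K (LinearMap.range (0 : Module.End W.K (W.H Z))) = 0 := by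
    rw [LinearMap.range_zero, finrank_bot]
  rw [h]
  have h1 := nrm_nonneg (S := S) (X := X) n
  have h2 : (0 : ℝ) ≤ S.r Z 0 (pw X n) := Nat.cast_nonneg _
  push_cast
  nlinarith

lemma low_add {e f : Module.End W.K (W.H Z)} (he : e ∈ S.Op Z Z) (hf : f ∈ S.Op Z Z)
    (hee : e ∘ₗ e = e) (hff : f ∘ₗ f = f) (hef : e ∘ₗ f = 0) (hfe : f ∘ₗ e = 0)
    (h1 : Low S X Z e) (h2 : Low S X Z f) : Low S X Z (e + f) := by
  intro δ hδ
  obtain ⟨n₁, hn₁⟩ := h1 (δ / 2) (by positivity)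
  obtain ⟨n₂, hn₂⟩ := h2 (δ / 2) (by positivity)
  refine ⟨max n₁ n₂, fun n hn => ?_⟩
  have e1 := hn₁ n ((le_max_left _ _).trans hn)
  have e2 := hn₂ n ((le_max_right _ _).trans hn)
  have e3 := r_add_orth S he hf hee hff hef hfe (pw X n)
  have e4 := (rank_add_orth hee hff hef hfe).2
  have e5 : (S.r Z e (pw X n) : ℝ) + S.r Z f (pw X n) ≤ S.r Z (e + f) (pw X n) := by
    exact_mod_cast e3
  have e6 : (finrank W.K (LinearMap.range (e + f)) : ℝ) =
      finrank W.K (LinearMap.range e) + finrank W.K (LinearMap.range f) := by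
    exact_mod_cast e4
  rw [e6]
  linarith

lemma low_of_fac (hS : Big S X) {e : Module.End W.K (W.H Z)} (he : e ∈ S.Op Z Z)
    (hee : e ∘ₗ e = e) {m : ℕ} {u : W.H (pw X m) →ₗ[W.K] W.H Z} (hu : u ∈ S.Op (pw X m) Z)
    {v : W.H Z →ₗ[W.K] W.H (pw X m)} (hv : v ∈ S.Op Z (pw X m)) (h : u ∘ₗ v = e) :
    Low S X Z e := by
  intro δ hδ
  have key : ∀ p : ℕ, ∃ n₀ : ℕ, ∀ n ≥ n₀, n % 2 = p % 2 →
      ((finrank W.K (LinearMap.range e) : ℝ) - δ) * nrm S X n ≤ S.r Z e (pw X n) := by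
    intro p
    obtain ⟨m', hm', u', hu', v', hv', h'⟩ := fac_add hS.lam hu hv p
    rw [h] at h'
    set g : Module.End W.K (W.H (pw X m')) := v' ∘ₗ e ∘ₗ u' with hg
    have hgm : g ∈ S.Op (pw X m') (pw X m') := Sys.Op.comp hv' (Sys.Op.comp he hu')
    have hgg : g ∘ₗ g = g := by
      apply LinearMap.ext
      intro x
      have e1 : ∀ y, u' (v' y) = e y := fun y => congrArg (fun f => f y) h'
      have e2 : ∀ y, e (e y) = e y := fun y => congrArg (fun f => f y) hee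
      change v' (e (u' (v' (e (u' x))))) = v' (e (u' x))
      rw [e1, e2, e2]
    have hrk : finrank W.K (LinearMap.range g) = finrank W.K (LinearMap.range e) := by
      have e1 := trace_idem (K := W.K) (f := g) hgg
      have e2 := trace_idem (K := W.K) (f := e) hee
      have e3 : LinearMap.trace W.K _ g = LinearMap.trace W.K _ e := by
        rw [hg, LinearMap.trace_comp_comm' (e ∘ₗ u') v', LinearMap.comp_assoc, h', hee]
      rw [e1, e2] at e3
      exact_mod_cast e3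
    set b := finrank W.K (W.H X) with hb
    have hb1 : (1 : ℝ) ≤ b := by exact_mod_cast hS.hX
    obtain ⟨j, hj⟩ : ∃ j, m' + m' % 2 + 2 = 2 * j := ⟨(m' + m' % 2 + 2) / 2, by omega⟩
    have hB2 : (0 : ℝ) < (b : ℝ) ^ 2 := by positivity
    obtain ⟨c, hc0, hcB, hc⟩ := exists_close hB2 j hδ
    obtain ⟨l₀, hl₀⟩ := hS.hB c hc0 hcB
    refine ⟨2 * l₀ + m' % 2 + 2, fun n hn hpar => ?_⟩
    have hn2 : 2 ≤ n := by omega
    obtain ⟨l, hl⟩ : ∃ l, l = (n - n % 2 - 2) / 2 := ⟨_, rfl⟩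
    have hl' : l ≥ l₀ := by omega
    have hmn : m' % 2 = n % 2 := by omega
    have h1 := r_lower' S (P₀ := pw X (n % 2)) hgm hgg (pw X l)
    have h2 : S.a (((pw X m').prod (pw X (n % 2))).prod ((pw X l).prod (pw X l))) =
        S.al X (l + j) := by
      rw [S.a_iso (prodCongr (pwAdd X m' (n % 2)) (Iso.refl _))]
      exact S.a_pw X (by omega)
    have h3 : S.a ((pw X l).prod (pw X l)) = S.al X l := rfl
    rw [h2, h3, hrk, finrank_pw, finrank_pw, ← hb] at h1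
    have h4 := r_le_of_fac S he hu' hv' ((pw X (n % 2)).prod ((pw X l).prod (pw X l)))
    rw [← hg] at h4
    have h5 : S.r Z e ((pw X (n % 2)).prod ((pw X l).prod (pw X l))) = S.r Z e (pw X n) := by
      rw [hl]
      exact S.r_iso e (phi X n hn2)
    rw [h5] at h4
    have h6 := ratio_pow hc0 hl₀ j l hl'
    have h7 : (S.al X (l + j) : ℝ) + finrank W.K (LinearMap.range e) * (b : ℝ) ^ (n % 2 + 1) *
        S.al X l ≤ S.r Z e (pw X n) + (b : ℝ) ^ (m' + 1) * (b : ℝ) ^ (n % 2 + 1) * S.al X l := by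
      exact_mod_cast h1.trans (Nat.add_le_add_right h4 _)
    have h8 : (b : ℝ) ^ (m' + 1) * (b : ℝ) ^ (n % 2 + 1) = ((b : ℝ) ^ 2) ^ j := by
      rw [← pow_add, ← pow_mul]
      congr 1
      omega
    rw [h8] at h7
    have h9 : (0 : ℝ) ≤ S.al X l := Nat.cast_nonneg _
    have h10 : nrm S X n = (b : ℝ) ^ (n % 2 + 1) * S.al X l := by rw [nrm, hl]
    rw [h10]
    have h11 : (1 : ℝ) ≤ (b : ℝ) ^ (n % 2 + 1) := one_le_pow₀ hb1
    have h12 : δ * S.al X l ≤ δ * ((b : ℝ) ^ (n % 2 + 1) * S.al X l) :=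
      mul_le_mul_of_nonneg_left (le_mul_of_one_le_left h9 h11) hδ.le
    have h13 : (((b : ℝ) ^ 2) ^ j - δ) * S.al X l ≤ c ^ j * S.al X l :=
      mul_le_mul_of_nonneg_right hc.le h9
    nlinarith
  obtain ⟨n₁, h₁⟩ := key 0
  obtain ⟨n₂, h₂⟩ := key 1
  refine ⟨max n₁ n₂, fun n hn => ?_⟩
  rcases Nat.mod_two_eq_zero_or_one n with h | h
  · exact h₁ n ((le_max_left _ _).trans hn) h
  · exact h₂ n ((le_max_right _ _).trans hn) h

/-- The rank of the intersection form on the powers of `X` themselves. -/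
lemma nrm_le (hS : Big S X) {δ : ℝ} (hδ : 0 < δ) : ∃ n₀ : ℕ, ∀ n ≥ n₀,
    (1 - δ) * nrm S X n ≤ S.a (pw X n) := by
  set b := finrank W.K (W.H X) with hb
  have hb1 : (1 : ℝ) ≤ b := by exact_mod_cast hS.hX
  have hB2 : (0 : ℝ) < (b : ℝ) ^ 2 := by positivity
  obtain ⟨c, hc0, hcB, hc⟩ := exists_close hB2 1 hδ
  rw [pow_one, pow_one] at hc
  obtain ⟨l₀, hl₀⟩ := hS.hB c hc0 hcB
  refine ⟨2 * l₀ + 3, fun n hn => ?_⟩
  have hn2 : 2 ≤ n := by omega
  obtain ⟨l, hl⟩ : ∃ l, l = (n - n % 2 - 2) / 2 := ⟨_, rfl⟩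
  have hl' : l ≥ l₀ := by omega
  have h5 : S.a ((pw X (n % 2)).prod ((pw X l).prod (pw X l))) = S.a (pw X n) := by
    rw [hl]
    exact S.a_iso (phi X n hn2)
  have h10 : nrm S X n = (b : ℝ) ^ (n % 2 + 1) * S.al X l := by rw [nrm, hl]
  have h9 : (0 : ℝ) ≤ S.al X l := Nat.cast_nonneg _
  have h6 := hl₀ l hl'
  rw [h10, ← h5]
  rcases Nat.mod_two_eq_zero_or_one n with h | h
  · rw [h]
    obtain ⟨y, hy, hy1⟩ := hS.lam
    have h1 := r_lower' S (P₀ := X) (g1_mem (S := S) hy) (g1_idem hy1) (pw X l)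
    have h2 : S.a ((X.prod X).prod ((pw X l).prod (pw X l))) = S.al X (l + 1) :=
      S.a_pw X (m := 1) (by ring)
    have h3 : S.a ((pw X l).prod (pw X l)) = S.al X l := rfl
    have h4 := r_g1_le S hy (X.prod ((pw X l).prod (pw X l)))
    rw [h2, h3, g1_rank hy1, one_mul, ← hb] at h1
    have h7 : (S.al X (l + 1) : ℝ) + b * S.al X l ≤
        S.a (X.prod ((pw X l).prod (pw X l))) + (b : ℝ) * b * S.al X l := by
      exact_mod_cast h1.trans (Nat.add_le_add_right h4 _)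
    change (1 - δ) * ((b : ℝ) ^ (0 + 1) * S.al X l) ≤ S.a (X.prod ((pw X l).prod (pw X l)))
    rw [zero_add, pow_one]
    have h12 : δ * S.al X l ≤ δ * ((b : ℝ) * S.al X l) :=
      mul_le_mul_of_nonneg_left (le_mul_of_one_le_left h9 hb1) hδ.le
    have h13 : ((b : ℝ) ^ 2 - δ) * S.al X l ≤ c * S.al X l :=
      mul_le_mul_of_nonneg_right hc.le h9
    nlinarith
  · rw [h]
    have h2 : S.a ((pw X 1).prod ((pw X l).prod (pw X l))) = S.al X (l + 1) :=
      S.a_pw X (m := 1) (by ring)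
    rw [h2]
    have h13 : ((b : ℝ) ^ 2 - δ) * S.al X l ≤ c * S.al X l :=
      mul_le_mul_of_nonneg_right hc.le h9
    have h11 : (1 : ℝ) ≤ (b : ℝ) ^ 2 := one_le_pow₀ hb1
    have h12 : δ * S.al X l ≤ δ * ((b : ℝ) ^ 2 * S.al X l) :=
      mul_le_mul_of_nonneg_left (le_mul_of_one_le_left h9 h11) hδ.le
    have h14 : (b : ℝ) ^ (1 + 1) = (b : ℝ) ^ 2 := by norm_num
    rw [h14]
    nlinarith

lemma a_le_nrm (n : ℕ) (hn : 2 ≤ n) : (S.a (pw X n) : ℝ) ≤ nrm S X n := by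
  have h5 : S.a ((pw X (n % 2)).prod ((pw X ((n - n % 2 - 2) / 2)).prod
      (pw X ((n - n % 2 - 2) / 2)))) = S.a (pw X n) := S.a_iso (phi X n hn)
  have h1 := S.a_le (pw X (n % 2)) (pw X ((n - n % 2 - 2) / 2))
  rw [h5, finrank_pw] at h1
  rw [nrm]
  exact_mod_cast h1

lemma nrm_pos (hS : Big S X) (n : ℕ) : 0 < nrm S X n := by
  have h1 : (0 : ℝ) < finrank W.K (W.H X) := by exact_mod_cast hS.hX
  have h2 : (0 : ℝ) < S.al X ((n - n % 2 - 2) / 2) := by exact_mod_cast hS.pos _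
  rw [nrm]
  positivity

end Pool.Agent.H61.ZX
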