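import Pool.Agent.H61.ZX.HN

/-!
# Two systems, the smaller one being equal to the larger one where it has no numerically trivial
classes
-/

open CategoryTheory AlgebraicGeometry

universe u v

namespace Pool.Agent.H61.ZX

open Module Filter Topology
open Pool.Agent.H914 Pool.Agent.H914.VarClass Pool.Agent.H914.VarClass.Obj
  Pool.Agent.H914.WeilCohomology Pool.Agent.Y133.Half

variable {k : Type u} [Field k] {𝒱 : VarClass k} {ops : CycleOps 𝒱}
  {W : WeilCohomology.{u, v} ops} {P Q Z X Y P₀ : 𝒱.Obj} {S T : Sys W}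

/-- The rank of the intersection form grows under products. -/
lemma a_le_prod {l : W.H Z} (hl : l ∈ S.C Z) (hl1 : W.tr Z l = 1) (Q : 𝒱.Obj) :
    S.a Q ≤ S.a (Z.prod Q) := by
  let f : S.C Q →ₗ[W.K] S.C (Z.prod Q) :=
    (W.map (snd Z Q)).toLinearMap.restrict fun c hc => S.map _ hc
  let g : S.C Q →ₗ[W.K] S.C (Z.prod Q) :=
    ((LinearMap.mulLeft W.K (W.map (fst Z Q) l)) ∘ₗ (W.map (snd Z Q)).toLinearMap).restrict
      fun c hc => S.mul (S.map _ hl) (S.map _ hc)
  have h2 : S.F Q 1 = (S.F (Z.prod Q) 1).compl₁₂ f g := by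
    apply LinearMap.ext
    intro c
    apply LinearMap.ext
    intro d
    rw [LinearMap.compl₁₂_apply, Sys.F_apply, Sys.F_apply, Module.End.one_apply,
      Module.End.one_apply]
    change W.tr Q ((c : W.H _) * (d : W.H _)) = W.tr (Z.prod Q) (W.map (snd Z Q) (c : W.H _) *
      (W.map (fst Z Q) l * W.map (snd Z Q) (d : W.H _)))
    have hev : W.map (fst Z Q) l ∈ PH W (Z.prod Q) 0 := PH.map (fst Z Q) (S.even hl)
    rw [← mul_assoc, ← PH.even_comm hev, mul_assoc, ← map_mul, W.tr_prod, hl1, one_mul]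
  rw [Sys.a, Sys.a, h2]
  exact rk_comp_le _ _ _

lemma nrm_congr (h0 : ∀ n, S.C (pw X n) = T.C (pw X n)) (n : ℕ) : nrm S X n = nrm T X n := by
  have h : ∀ m, S.a (pw X m) = T.a (pw X m) := by
    intro m
    have h1 := S.a_add_num (pw X m)
    have h2 := T.a_add_num (pw X m)
    have h3 : S.Num (pw X m) = T.Num (pw X m) := by
      ext x
      change (x ∈ S.C _ ∧ ∀ y ∈ S.C _, _) ↔ (x ∈ T.C _ ∧ ∀ y ∈ T.C _, _)
      rw [h0]
    rw [h3, h0] at h1
    omega
  rw [nrm, nrm]
  have h1 : S.al X ((n - n % 2 - 2) / 2) = S.a (pw X _) := S.a_iso (pwAdd X _ _)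
  have h2 : T.al X ((n - n % 2 - 2) / 2) = T.a (pw X _) := T.a_iso (pwAdd X _ _)
  rw [h1, h2, h]

/-- **The law of the three integers.** -/
theorem ss_law (hST : ∀ X, S.C X ≤ T.C X) (h0 : ∀ n, S.C (pw X n) = T.C (pw X n))
    (hnum : ∀ Q, S.Num Q = ⊥ → S.C Q = T.C Q)
    (hT : ∀ Q, Sys.Nondeg T Q) (hX : (1 : W.H X) ≠ 0) (hZ : (1 : W.H Z) ≠ 0)
    (hl : ∃ l ∈ S.C Z, W.tr Z l = 1) :
    ∃ w u v : ℕ, 1 ≤ w ∧ w ≤ u ∧ u ≤ v ∧ v ≤ finrank W.K (W.H Z) ∧ 2 * u ≤ v + w ∧
      Tendsto (fun n => (S.a (Z.prod (pw X n)) : ℝ) /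
        finrank W.K (T.C (Z.prod (pw X n)))) atTop (𝓝 (w / v)) ∧
      Tendsto (fun n => (finrank W.K (S.C (Z.prod (pw X n))) : ℝ) /
        finrank W.K (T.C (Z.prod (pw X n)))) atTop (𝓝 (u / v)) ∧
      Tendsto (fun n => (finrank W.K (T.C (Z.prod (pw X n))) : ℝ) /
        finrank W.K (T.C (pw X n))) atTop (𝓝 v) ∧
      (w = u ∨ u = v → ∀ n, S.C (Z.prod (pw X n)) = T.C (Z.prod (pw X n))) ∧
      ((∀ n, S.C (Z.prod (pw X n)) = T.C (Z.prod (pw X n))) → w = v) := by
  have hbigT := big_of_nondeg (T := T) (X := X) (fun n => hT _) hX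
  have hN : ∀ n, S.Num (pw X n) = ⊥ := by
    intro n
    rw [eq_bot_iff]
    rintro x ⟨hx, h⟩
    rw [Submodule.mem_bot]
    rw [h0] at hx h
    exact hT _ x hx h
  have hbigS := big_of_nondeg (T := S) (X := X) (fun n => nondeg_of_num (hN n)) hX
  obtain ⟨u, v, hu, huv, hv, t1, t2, hiff⟩ := limit_law (Z := Z) hST h0 hT hX hZ
  obtain ⟨π, hπ, hmax, -⟩ := exists_max (S := S) (Z := Z) (X := X) (fun _ => le_rfl) Good.zero
  set w := finrank W.K (LinearMap.range π) with hw
  have e1 : ∀ n, S.r Z π (pw X n) = S.a (Z.prod (pw X n)) := fun n =>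
    (a_eq_r hπ.mem hmax n).symm
  have s1 := tendsto_r hbigS hπ.mem hπ.idem (hπ.low S hbigS fun _ => le_rfl)
  simp only [e1, nrm_congr h0] at s1
  -- the classes of `T`
  have s2 := tendsto_X hbigT fun n => hT _
  have hnrm : ∀ n, nrm T X n ≠ 0 := fun n => (nrm_pos hbigT n).ne'
  have hCX : ∀ n, (finrank W.K (T.C (pw X n)) : ℝ) ≠ 0 := by
    intro n
    have h8 : T.C (pw X n) ≠ ⊥ := by
      intro h
      have := T.one (pw X n)
      rw [h, Submodule.mem_bot] at this
      exact one_ne_pw hX n this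
    have h9 := Submodule.one_le_finrank_iff.2 h8
    have h10 : finrank W.K (T.C (pw X n)) ≠ 0 := by omega
    exact_mod_cast h10
  have s3 : Tendsto (fun n => (finrank W.K (T.C (Z.prod (pw X n))) : ℝ) / nrm T X n) atTop
      (𝓝 v) := by
    have h1 := t2.mul s2
    rw [mul_one] at h1
    refine h1.congr fun n => ?_
    rw [div_mul_div_cancel₀ (hCX n)]
  have hv0 : (0 : ℝ) < v := by
    have : 0 < v := by omega
    exact_mod_cast this
  have s4 : Tendsto (fun n => (S.a (Z.prod (pw X n)) : ℝ) /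
      finrank W.K (T.C (Z.prod (pw X n)))) atTop (𝓝 (w / v)) := by
    refine (s1.div s3 hv0.ne').congr fun n => ?_
    rw [Pi.div_apply, div_div_div_cancel_right₀ (hnrm n)]
  have s5 : Tendsto (fun n => (finrank W.K (S.C (Z.prod (pw X n))) : ℝ) / nrm T X n) atTop
      (𝓝 u) := by
    have h1 := t1.mul s3
    rw [div_mul_cancel₀ _ hv0.ne'] at h1
    refine h1.congr' ?_
    filter_upwards [s3.eventually (lt_mem_nhds hv0)] with n hn
    have h2 : (finrank W.K (T.C (Z.prod (pw X n))) : ℝ) ≠ 0 := by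
      intro h
      rw [h, zero_div] at hn
      exact lt_irrefl _ hn
    rw [div_mul_div_cancel₀ h2]
  -- `w ≤ u`
  have hwu : w ≤ u := by
    have h1 : (w : ℝ) ≤ u := by
      refine le_of_tendsto_of_tendsto' s1 s5 fun n => ?_
      apply div_le_div_of_nonneg_right _ (nrm_pos hbigT n).le
      have h2 := S.a_add_num (Z.prod (pw X n))
      exact_mod_cast (by omega : S.a (Z.prod (pw X n)) ≤ finrank W.K (S.C (Z.prod (pw X n))))
    exact_mod_cast h1
  have hw1 : 1 ≤ w := by
    obtain ⟨l, hl0, hl1⟩ := hl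
    have h1 : (1 : ℝ) ≤ w := by
      have s6 := tendsto_X hbigS fun n => nondeg_of_num (hN n)
      simp only [nrm_congr h0] at s6
      refine le_of_tendsto_of_tendsto' s6 s1 fun n => ?_
      apply div_le_div_of_nonneg_right _ (nrm_pos hbigT n).le
      rw [← a_eq_of_nondeg (nondeg_of_num (hN n))]
      exact_mod_cast a_le_prod hl0 hl1 (pw X n)
    exact_mod_cast h1
  -- the numerically trivial classes
  have hnumC : ∀ n, (finrank W.K (S.Num (Z.prod (pw X n))) : ℝ) =
      finrank W.K (S.C (Z.prod (pw X n))) - S.a (Z.prod (pw X n)) := by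
    intro n
    have h2 := S.a_add_num (Z.prod (pw X n))
    rw [eq_sub_iff_add_eq, add_comm]
    exact_mod_cast h2
  have s7 : Tendsto (fun n => (finrank W.K (S.Num (Z.prod (pw X n))) : ℝ) / nrm T X n) atTop
      (𝓝 ((u : ℝ) - w)) := by
    refine (s5.sub s1).congr fun n => ?_
    rw [hnumC, sub_div]
  -- the bound for the numerically trivial classes
  have h2u : 2 * u ≤ v + w := by
    have s8 := tendsto_r hbigT (Op_mono hST _ _ hπ.mem) hπ.idem (hπ.low T hbigT hST)
    have h1 : (2 : ℝ) * ((u : ℝ) - w) ≤ v - w := by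
      refine le_of_tendsto_of_tendsto' (s7.const_mul 2) (s3.sub s8) fun n => ?_
      have h3 := num_le hST hN (hT (Z.prod (pw X n))) hπ
      have hmT : π ∈ T.Op Z Z := Op_mono hST _ _ hπ.mem
      have h5 : T.r Z π (pw X n) + T.r Z (1 - π) (pw X n) ≤
          finrank W.K (T.C (Z.prod (pw X n))) := by
        have hππ : π * π = π := hπ.idem
        have h6 := r_add_orth T hmT (Submodule.sub_mem _ Sys.Op.id hmT) hπ.idem
          (Sys.finrank_compl hπ.idem).1
          (show π * (1 - π) = 0 by rw [mul_sub, hππ, mul_one, sub_self])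
          (show (1 - π) * π = 0 by rw [sub_mul, hππ, one_mul, sub_self]) (pw X n)
        have h7 : π + (LinearMap.id - π) = 1 := by
          rw [add_sub_cancel]; rfl
        rw [h7, Sys.r_one, a_eq_of_nondeg (hT _)] at h6
        exact h6
      rw [← sub_div, ← mul_div_assoc]
      apply div_le_div_of_nonneg_right _ (nrm_pos hbigT n).le
      have h8 : (T.r Z π (pw X n) : ℝ) + 2 * finrank W.K (S.Num (Z.prod (pw X n))) ≤
          finrank W.K (T.C (Z.prod (pw X n))) := by
        exact_mod_cast (by omega : T.r Z π (pw X n) + 2 * finrank W.K (S.Num (Z.prod (pw X n))) ≤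
          finrank W.K (T.C (Z.prod (pw X n))))
      linarith
    have h2 : (2 : ℝ) * u ≤ v + w := by linarith
    exact_mod_cast h2
  refine ⟨w, u, v, hw1, hwu, huv, hv, h2u, s4, t1, t2, ?_, ?_⟩
  · rintro (h | h)
    · -- no numerically trivial classes
      by_contra hne
      push Not at hne
      obtain ⟨m, hm⟩ := hne
      have hm' : S.Num (Z.prod (pw X m)) ≠ ⊥ := fun h => hm (hnum _ h)
      obtain ⟨n₁, hn₁⟩ := num_lower hbigS hm' (δ := 1 / 2) (by norm_num)
      obtain ⟨n₂, hn₂⟩ := num_lower hbigS (num_succ hX hm') (δ := 1 / 2) (by norm_num)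
      rw [h, sub_self] at s7
      have h1 := s7.eventually (gt_mem_nhds (show (0 : ℝ) < 1 / 2 by norm_num))
      obtain ⟨n₃, hn₃⟩ := eventually_atTop.1 h1
      have hlow : ∀ n ≥ max n₁ n₂, (1 - 1 / 2 : ℝ) * nrm S X n ≤
          finrank W.K (S.Num (Z.prod (pw X n))) := by
        intro n hn
        by_cases hpar : n % 2 = m % 2
        · exact hn₁ n ((le_max_left _ _).trans hn) hpar
        · exact hn₂ n ((le_max_right _ _).trans hn) (by omega)
      have h2 := hlow (max (max n₁ n₂) n₃) (le_max_left _ _)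
      have h3 := hn₃ (max (max n₁ n₂) n₃) (le_max_right _ _)
      rw [nrm_congr h0] at h2
      rw [div_lt_iff₀ (nrm_pos hbigT _)] at h3
      linarith
    · exact hiff.1 h
  · intro h
    have h1 : Tendsto (fun n => (S.a (Z.prod (pw X n)) : ℝ) / nrm T X n) atTop (𝓝 v) := by
      refine s3.congr fun n => ?_
      rw [← h n]
      congr 1
      have h2 : S.Num (Z.prod (pw X n)) = ⊥ := by
        rw [eq_bot_iff]
        rintro x ⟨hx, hx'⟩
        rw [Submodule.mem_bot]
        rw [h] at hx hx'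
        exact hT _ x hx hx'
      have h3 := a_eq_of_nondeg (nondeg_of_num h2)
      exact_mod_cast h3.symm
    have h2 := tendsto_nhds_unique s1 h1
    exact_mod_cast h2

/-- **The gap for the rank of the intersection form.** -/
theorem ss_gap (hST : ∀ X, S.C X ≤ T.C X)
    (hnum : ∀ Q, S.Num Q = ⊥ → S.C Q = T.C Q)
    (hT : ∀ Q, Sys.Nondeg T Q) (hX : (1 : W.H X) ≠ 0) (hZ : (1 : W.H Z) ≠ 0)
    (hl : ∃ l ∈ S.C Z, W.tr Z l = 1) :
    (∀ n, S.C (Z.prod (pw X n)) = T.C (Z.prod (pw X n))) ∨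
      ∀ ε : ℝ, 0 < ε → ∃ n₀ : ℕ, ∀ n ≥ n₀, (S.a (Z.prod (pw X n)) : ℝ) ≤
        (max (0 : ℝ) (1 - 2 / (finrank W.K (W.H Z) : ℝ)) + ε) *
          finrank W.K (T.C (Z.prod (pw X n))) := by
  by_cases hall : ∀ n, S.C (Z.prod (pw X n)) = T.C (Z.prod (pw X n))
  · exact Or.inl hall
  right
  intro ε hε
  by_cases h0 : ∀ n, S.C (pw X n) = T.C (pw X n)
  · obtain ⟨w, u, v, hw, hwu, huv, hv, h2u, t1, -, -, h1, -⟩ :=
      ss_law (Z := Z) hST h0 hnum hT hX hZ hl
    have hne : w ≠ u := fun h => hall (h1 (Or.inl h))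
    have hw2 : w + 2 ≤ v := by omega
    have hv0 : (0 : ℝ) < v := by
      have : 0 < v := by omega
      exact_mod_cast this
    have hβ0 : (0 : ℝ) < finrank W.K (W.H Z) := hv0.trans_le (by exact_mod_cast hv)
    have h3 : (w / v : ℝ) < 1 - 2 / finrank W.K (W.H Z) + ε := by
      have h4 : (w / v : ℝ) ≤ 1 - 2 / v := by
        rw [div_le_iff₀ hv0, sub_mul, one_mul, div_mul_cancel₀ _ hv0.ne', le_sub_iff_add_le]
        exact_mod_cast hw2
      have h5 : (2 : ℝ) / finrank W.K (W.H Z) ≤ 2 / v :=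
        div_le_div_of_nonneg_left (by norm_num) hv0 (by exact_mod_cast hv)
      linarith
    obtain ⟨n₀, hn₀⟩ := eventually_atTop.1 (t1.eventually (gt_mem_nhds h3))
    refine ⟨n₀, fun n hn => ?_⟩
    have h4 := hn₀ n hn
    have h5 : (0 : ℝ) < finrank W.K (T.C (Z.prod (pw X n))) := by
      have h6 : 0 < finrank W.K (T.C (Z.prod (pw X n))) := by
        have h7 := finrank_snd_le hZ T (pw X n)
        have h8 : T.C (pw X n) ≠ ⊥ := by
          intro h
          have := T.one (pw X n)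
          rw [h, Submodule.mem_bot] at this
          exact one_ne_pw hX n this
        have h9 := Submodule.one_le_finrank_iff.2 h8
        omega
      exact_mod_cast h6
    rw [div_lt_iff₀ h5] at h4
    refine h4.le.trans (mul_le_mul_of_nonneg_right ?_ h5.le)
    have := le_max_right (0 : ℝ) (1 - 2 / (finrank W.K (W.H Z) : ℝ))
    linarith
  · have hN : ¬ ∀ n, S.Num (pw X n) = ⊥ := fun h => h0 fun n => hnum _ (h n)
    obtain ⟨N, hN1⟩ := exists_nat_gt (1 / ε)
    obtain ⟨n₀, hn₀⟩ := zero_law (Z := Z) hX hZ hN N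
    refine ⟨n₀, fun n hn => ?_⟩
    have h1 : (N : ℝ) * S.a (Z.prod (pw X n)) ≤ finrank W.K (T.C (Z.prod (pw X n))) := by
      have h2 := hn₀ n hn
      have h3 : finrank W.K (S.C (Z.prod (pw X n))) ≤ finrank W.K (T.C (Z.prod (pw X n))) :=
        Submodule.finrank_mono (hST _)
      exact_mod_cast h2.trans h3
    have h2 : (0 : ℝ) ≤ S.a (Z.prod (pw X n)) := Nat.cast_nonneg _
    have h3 : 1 / ε * S.a (Z.prod (pw X n)) ≤ finrank W.K (T.C (Z.prod (pw X n))) :=
      (mul_le_mul_of_nonneg_right hN1.le h2).trans h1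
    rw [one_div, inv_mul_le_iff₀ hε] at h3
    refine h3.trans (mul_le_mul_of_nonneg_right ?_ (Nat.cast_nonneg _))
    have := le_max_left (0 : ℝ) (1 - 2 / (finrank W.K (W.H Z) : ℝ))
    linarith

end Pool.Agent.H61.ZX
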