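import Pool.Agent.H61.ZX.Cat

/-!
# The idempotent of a vector
-/

namespace Pool.Agent.H61.ZX

open Module Polynomial Pool.Agent.Y133.Half

variable {ι K : Type*} [Fintype ι] [DecidableEq ι] [Field K] {V : ι → Type*}
  [∀ i, AddCommGroup (V i)] [∀ i, Module K (V i)] [∀ i, FiniteDimensional K (V i)]
  (C : Cat K V)

/-- The values of the operators at a vector. -/
def valC (i j : ι) (x : V i) : C.S j i →ₗ[K] V j where
  toFun v := (v : V i →ₗ[K] V j) x
  map_add' _ _ := rfl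
  map_smul' _ _ := rfl

/-- A nonzero vector yields an idempotent whose form has rank at most the dimension of the space
of the values of the operators at the vector. -/
lemma exists_of_vec {i : ι} {x : V i} (hx : x ≠ 0) :
    ∃ g ∈ C.S i i, g ∘ₗ g = g ∧ g ≠ 0 ∧ ∀ j,
      rk (C.B i j g LinearMap.id) ≤ finrank K (LinearMap.range (valC C i j x)) := by
  let M : Submodule K (V i) := LinearMap.range (valC C i i x)
  have hstab : C.Stable M := by
    rintro a ha _ ⟨b, rfl⟩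
    exact ⟨⟨a ∘ₗ (b : V i →ₗ[K] V i), C.mul ha b.2⟩, rfl⟩
  have hlt : (⊥ : Submodule K (V i)) < M := by
    rw [bot_lt_iff_ne_bot]
    intro h
    have h1 : x ∈ M := ⟨⟨1, C.one i⟩, rfl⟩
    rw [h, Submodule.mem_bot] at h1
    exact hx h1
  have hbot : C.Stable (⊥ : Submodule K (V i)) := by
    intro a _ m hm
    rw [Submodule.mem_bot] at hm ⊢
    rw [hm, map_zero]
  obtain ⟨g, hg, hgg, hg0, hB⟩ := C.step i hbot hstab hlt
  refine ⟨g, hg, hgg, hg0, fun j => ?_⟩
  have h3 : C.gen i j M ≤ LinearMap.range (valC C i j x) := by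
    refine Submodule.span_le.2 ?_
    rintro _ ⟨v, hv, _, ⟨b, rfl⟩, rfl⟩
    exact ⟨⟨v ∘ₗ (b : V i →ₗ[K] V i), C.mul hv b.2⟩, rfl⟩
  exact ((Nat.le_add_left _ _).trans (hB j)).trans (Submodule.finrank_mono h3)

/-- The same for a vector in the image of an operator `t`, and the operators `v ∘ t`. -/
lemma exists_of_op {i : ι} {U : Type*} [AddCommGroup U] [Module K U] [FiniteDimensional K U]
    {t : U →ₗ[K] V i} (ht : t ≠ 0) :
    ∃ g ∈ C.S i i, g ∘ₗ g = g ∧ g ≠ 0 ∧ ∀ (j : ι) (N : Submodule K (U →ₗ[K] V j)),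
      (∀ v ∈ C.S j i, v ∘ₗ t ∈ N) → rk (C.B i j g LinearMap.id) ≤ finrank K N := by
  obtain ⟨z, hz⟩ : ∃ z, t z ≠ 0 := by
    by_contra h
    push Not at h
    exact ht (LinearMap.ext h)
  obtain ⟨g, hg, hgg, hg0, hB⟩ := exists_of_vec C hz
  refine ⟨g, hg, hgg, hg0, fun j N hN => (hB j).trans ?_⟩
  let F : C.S j i →ₗ[K] N :=
    { toFun := fun v => ⟨(v : V i →ₗ[K] V j) ∘ₗ t, hN v v.2⟩
      map_add' := fun _ _ => Subtype.ext (LinearMap.add_comp _ _ _)
      map_smul' := fun _ _ => Subtype.ext (LinearMap.smul_comp _ _ _) }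
  let E : N →ₗ[K] V j := (LinearMap.applyₗ z) ∘ₗ N.subtype
  have h1 : valC C i j (t z) = E ∘ₗ F := rfl
  rw [h1, LinearMap.range_comp]
  exact (Submodule.finrank_map_le _ _).trans (Submodule.finrank_le _)

end Pool.Agent.H61.ZX
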