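import Pool.Agent.H61.ZX.Law
import Pool.Agent.H61.ZX.Vec

/-!
# A uniform lower bound, and the numerically trivial classes on mixed products
-/

open CategoryTheory AlgebraicGeometry

universe u v

namespace Pool.Agent.H61.ZX

open Module Filter Topology
open Pool.Agent.H914 Pool.Agent.H914.VarClass Pool.Agent.H914.VarClass.Obj
  Pool.Agent.H914.WeilCohomology Pool.Agent.Y133.Half

variable {k : Type u} [Field k] {𝒱 : VarClass k} {ops : CycleOps 𝒱}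
  {W : WeilCohomology.{u, v} ops} {P Q Z X Y P₀ : 𝒱.Obj} {S : Sys W}

/-- The lower bound for idempotents of a power of `X`, uniform in the idempotent. -/
lemma low_unif (hS : Big S X) (m : ℕ) {δ : ℝ} (hδ : 0 < δ) : ∃ n₀ : ℕ, ∀ n ≥ n₀,
    n % 2 = m % 2 → ∀ e ∈ S.Op (pw X m) (pw X m), e ∘ₗ e = e →
      ((finrank W.K (LinearMap.range e) : ℝ) - δ) * nrm S X n ≤ S.r (pw X m) e (pw X n) := by
  set b := finrank W.K (W.H X) with hb
  have hb1 : (1 : ℝ) ≤ b := by exact_mod_cast hS.hX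
  obtain ⟨j, hj⟩ : ∃ j, m + m % 2 + 2 = 2 * j := ⟨(m + m % 2 + 2) / 2, by omega⟩
  have hB2 : (0 : ℝ) < (b : ℝ) ^ 2 := by positivity
  obtain ⟨c, hc0, hcB, hc⟩ := exists_close hB2 j hδ
  obtain ⟨l₀, hl₀⟩ := hS.hB c hc0 hcB
  refine ⟨2 * l₀ + m % 2 + 2, fun n hn hpar e he hee => ?_⟩
  have hn2 : 2 ≤ n := by omega
  obtain ⟨l, hl⟩ : ∃ l, l = (n - n % 2 - 2) / 2 := ⟨_, rfl⟩
  have hl' : l ≥ l₀ := by omega
  have h1 := r_lower' S (P₀ := pw X (n % 2)) he hee (pw X l)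
  have h2 : S.a (((pw X m).prod (pw X (n % 2))).prod ((pw X l).prod (pw X l))) =
      S.al X (l + j) := by
    rw [S.a_iso (prodCongr (pwAdd X m (n % 2)) (Iso.refl _))]
    exact S.a_pw X (by omega)
  have h3 : S.a ((pw X l).prod (pw X l)) = S.al X l := rfl
  rw [h2, h3, finrank_pw, finrank_pw, ← hb] at h1
  have h5 : S.r (pw X m) e ((pw X (n % 2)).prod ((pw X l).prod (pw X l))) =
      S.r (pw X m) e (pw X n) := by
    rw [hl]
    exact S.r_iso e (phi X n hn2)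
  rw [h5] at h1
  have h6 := ratio_pow hc0 hl₀ j l hl'
  have h7 : (S.al X (l + j) : ℝ) + finrank W.K (LinearMap.range e) * (b : ℝ) ^ (n % 2 + 1) *
      S.al X l ≤ S.r (pw X m) e (pw X n) + (b : ℝ) ^ (m + 1) * (b : ℝ) ^ (n % 2 + 1) *
        S.al X l := by
    exact_mod_cast h1
  have h8 : (b : ℝ) ^ (m + 1) * (b : ℝ) ^ (n % 2 + 1) = ((b : ℝ) ^ 2) ^ j := by
    rw [← pow_add, ← pow_mul]
    congr 1
    omega
  rw [h8] at h7
  have h9 : (0 : ℝ) ≤ S.al X l := Nat.cast_nonneg _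
  have h10 : nrm S X n = (b : ℝ) ^ (n % 2 + 1) * S.al X l := by rw [nrm, hl]
  rw [h10]
  have h11 : (1 : ℝ) ≤ (b : ℝ) ^ (n % 2 + 1) := one_le_pow₀ hb1
  have h12 : δ * S.al X l ≤ δ * ((b : ℝ) ^ (n % 2 + 1) * S.al X l) :=
    mul_le_mul_of_nonneg_left (le_mul_of_one_le_left h9 h11) hδ.le
  have h13 : (((b : ℝ) ^ 2) ^ j - δ) * S.al X l ≤ c ^ j * S.al X l :=
    mul_le_mul_of_nonneg_right hc.le h9
  nlinarith

/-- A numerically trivial operator from `Z` to `P` yields many numerically trivial operators. -/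
lemma exists_g_of_NOp {t : W.H Z →ₗ[W.K] W.H P} (ht : t ∈ S.NOp Z P) (ht0 : t ≠ 0) (Q : 𝒱.Obj) :
    ∃ g ∈ S.Op P P, g ∘ₗ g = g ∧ g ≠ 0 ∧ S.r P g Q ≤ finrank W.K (S.Num (Z.prod Q)) := by
  let X' : Fin 2 → 𝒱.Obj := ![P, Q]
  obtain ⟨g, hg, hgg, hg0, hB⟩ := exists_of_op (S.cat X') (i := 0) (U := W.H Z) (t := t) ht0
  refine ⟨g, hg, hgg, hg0, ?_⟩
  have h1 := rB S X' 0 1 (g := g) (Sys.Op.ev (S := S) hg)
  have h2 := hB 1 (S.NOp Z Q) (fun v hv => Sys.NOp.comp_left (S := S) hv ht)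
  refine le_trans (le_of_eq h1.symm) (h2.trans ?_)
  exact Submodule.finrank_map_le (corrL W Z Q) (S.Num (Z.prod Q))

/-- Numerically trivial classes on one product `Z × X^m` yield many of them on all of them. -/
lemma num_lower (hS : Big S X) {m : ℕ} (h : S.Num (Z.prod (pw X m)) ≠ ⊥) {δ : ℝ} (hδ : 0 < δ) :
    ∃ n₀ : ℕ, ∀ n ≥ n₀, n % 2 = m % 2 →
      (1 - δ) * nrm S X n ≤ finrank W.K (S.Num (Z.prod (pw X n))) := by
  obtain ⟨c, hc, hc0⟩ := Submodule.exists_mem_ne_zero_of_ne_bot h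
  have ht : W.corr c ∈ S.NOp Z (pw X m) := Sys.NOp.corr hc
  have ht0 : W.corr c ≠ 0 := fun h => hc0 (corr_inj h)
  obtain ⟨n₀, hn₀⟩ := low_unif hS m hδ
  refine ⟨n₀, fun n hn hpar => ?_⟩
  obtain ⟨g, hg, hgg, hg0, hr⟩ := exists_g_of_NOp ht ht0 (pw X n)
  have h1 := hn₀ n hn hpar g hg hgg
  have h2 : (1 : ℝ) ≤ finrank W.K (LinearMap.range g) := by
    exact_mod_cast Sys.finrank_range_pos hg0
  have h3 := nrm_nonneg (S := S) (X := X) n
  have h4 : (S.r (pw X m) g (pw X n) : ℝ) ≤ finrank W.K (S.Num (Z.prod (pw X n))) := by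
    exact_mod_cast hr
  nlinarith

/-- Pulling back numerically trivial classes to a larger power. -/
lemma num_succ (hX : (1 : W.H X) ≠ 0) {m : ℕ} (h : S.Num (Z.prod (pw X m)) ≠ ⊥) :
    S.Num (Z.prod (pw X (m + 1))) ≠ ⊥ := by
  obtain ⟨c, hc, hc0⟩ := Submodule.exists_mem_ne_zero_of_ne_bot h
  intro h1
  have h2 : W.map (fst (Z.prod (pw X m)) X) c ∈ S.Num ((Z.prod (pw X m)).prod X) :=
    Sys.Num.map _ hc
  have h3 : W.map (θ₃ Z (pw X m) X).inv (W.map (fst (Z.prod (pw X m)) X) c) ∈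
      S.Num (Z.prod ((pw X m).prod X)) := Sys.Num.map _ h2
  have h4 : S.Num (Z.prod ((pw X m).prod X)) = ⊥ := h1
  rw [h4, Submodule.mem_bot] at h3
  have h5 := congrArg (W.map (θ₃ Z (pw X m) X).hom) h3
  rw [← W.map_comp, Iso.hom_inv_id, W.map_id, map_zero] at h5
  have h6 : xp W c (1 : W.H X) = 0 := by rw [xp, map_one, mul_one, h5]
  exact hc0 (xp_eq_zero_right hX h6)

end Pool.Agent.H61.ZX
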