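import Pool.Agent.H61.ZX.Base

/-!
# The unit component of the cohomology, and powers of different parity
-/

open CategoryTheory AlgebraicGeometry

universe u v

namespace Pool.Agent.H61.ZX

open Module
open Pool.Agent.H914 Pool.Agent.H914.VarClass Pool.Agent.H914.VarClass.Obj
  Pool.Agent.H914.WeilCohomology Pool.Agent.Y133.Half

variable {k : Type u} [Field k] {𝒱 : VarClass k} {ops : CycleOps 𝒱}
  {W : WeilCohomology.{u, v} ops} {P Q Z X Y P₀ : 𝒱.Obj} (S : Sys W)

/-- The projector to the multiples of `1`. -/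
noncomputable def g1 {X : 𝒱.Obj} (l : W.H X) : Module.End W.K (W.H X) :=
  (LinearMap.toSpanSingleton W.K (W.H X) 1) ∘ₗ (W.tr X) ∘ₗ (LinearMap.mulLeft W.K l)

lemma g1_apply (l x : W.H X) : g1 l x = W.tr X (l * x) • (1 : W.H X) := rfl

lemma g1_mem {l : W.H X} (hl : l ∈ S.C X) : g1 l ∈ S.Op X X := by
  refine Sys.mem_Op.2 ⟨W.map (fst X X) l, S.map _ hl, ?_⟩
  apply LinearMap.ext
  intro x
  rw [corr_apply, ← map_mul, g1_apply]
  apply W.tr_ext
  intro c
  rw [W.tr_push, smul_mul_assoc, map_smul, one_mul, smul_eq_mul]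
  exact W.tr_prod _ _

lemma g1_idem {l : W.H X} (hl1 : W.tr X l = 1) : g1 l ∘ₗ g1 l = g1 l := by
  apply LinearMap.ext
  intro x
  rw [LinearMap.comp_apply, g1_apply, g1_apply, mul_smul_comm, map_smul, mul_one, hl1,
    smul_eq_mul, mul_one]

lemma g1_rank {l : W.H X} (hl1 : W.tr X l = 1) :
    finrank W.K (LinearMap.range (g1 l)) = 1 := by
  have h1 : (1 : W.H X) ≠ 0 := one_ne_zero_of (ne_zero_of_tr hl1)
  have h2 : LinearMap.range (g1 l) = Submodule.span W.K {(1 : W.H X)} := by
    apply le_antisymm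
    · rintro _ ⟨x, rfl⟩
      rw [g1_apply]
      exact Submodule.smul_mem _ _ (Submodule.mem_span_singleton_self _)
    · rw [Submodule.span_singleton_le_iff_mem]
      exact ⟨1, by rw [g1_apply, mul_one, hl1, one_smul]⟩
  rw [h2, finrank_span_singleton h1]

/-- The rank of the unit part of `X × Q`. -/
lemma r_g1_le {l : W.H X} (hl : l ∈ S.C X) (Q : 𝒱.Obj) : S.r X (g1 l) Q ≤ S.a Q := by
  have hev : l ∈ PH W X 0 := S.even hl
  -- the operator `g1 ⊗ 1` on classes
  have key : ∀ c : W.H (X.prod Q), extOp W (g1 l) 1 c =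
      W.map (snd X Q) (W.push (snd X Q) (W.map (fst X Q) l * c)) := by
    have h : extOp W (g1 l) (1 : Module.End W.K (W.H Q)) =
        ((W.map (snd X Q)).toLinearMap ∘ₗ W.push (snd X Q)) ∘ₗ
          LinearMap.mulLeft W.K (W.map (fst X Q) l) := by
      apply xp_ext
      intro i j a _ b _
      rw [extOp_xp, Module.End.one_apply, g1_apply]
      change _ = W.map (snd X Q) (W.push (snd X Q) (W.map (fst X Q) l * xp W a b))
      have h1 : W.push (snd X Q) (W.map (fst X Q) l * xp W a b) = W.tr X (l * a) • b := by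
        apply W.tr_ext
        intro c
        rw [W.tr_push, smul_mul_assoc, map_smul, smul_eq_mul, xp, ← mul_assoc, ← map_mul,
          mul_assoc, ← map_mul, W.tr_prod]
      rw [h1, map_smul, xp, map_smul, map_one, smul_mul_assoc, one_mul]
    intro c
    rw [h]
    rfl
  have hpush : ∀ c ∈ S.C (X.prod Q), W.push (snd X Q) (W.map (fst X Q) l * c) ∈ S.C Q :=
    fun c hc => S.push _ (S.mul (S.map _ hl) hc)
  let f : S.C (X.prod Q) →ₗ[W.K] S.C Q :=
    ((W.push (snd X Q)) ∘ₗ (LinearMap.mulLeft W.K (W.map (fst X Q) l))).restrict hpush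
  let g : S.C (X.prod Q) →ₗ[W.K] S.C Q :=
    (W.push (snd X Q)).restrict fun c hc => S.push _ hc
  have h2 : S.F (X.prod Q) (extOp W (g1 l) 1) = (S.F Q 1).compl₁₂ f g := by
    apply LinearMap.ext
    intro c
    apply LinearMap.ext
    intro d
    rw [LinearMap.compl₁₂_apply, Sys.F_apply, Sys.F_apply, key]
    change W.tr _ (W.map (snd X Q) (W.push (snd X Q) (W.map (fst X Q) l * (c : W.H _))) *
      (d : W.H _)) = W.tr Q (W.push (snd X Q) (W.map (fst X Q) l * (c : W.H _)) *
        W.push (snd X Q) (d : W.H _))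
    have h3 := hpush c c.2
    rw [PH.even_comm (PH.map (snd X Q) (S.even h3)), ← W.tr_push,
      PH.even_comm (S.even h3)]
  rw [Sys.r, h2]
  exact rk_comp_le _ _ _

end Pool.Agent.H61.ZX
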